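import Mathlib

/-! # [H4 JP CHB] Chebyshev's inequality for a product of finite uniform spaces

`sqrt_sum`: `√i ≥ (2/3) (i^(3/2) - (i-1)^(3/2))` (for `i ≥ 1`; convexity, or with `s = √i`, `t = √(i-1)`, `s^2 - t^2 = 1`: `2(s^3 - t^3) ≤ 3 s` as `s^3 - t^3 = (s-t)(s^2+st+t^2)`, `s - t = 1/(s+t)`:
`2(s^2+st+t^2) ≤ 3 s (s+t)` iff `2t^2 ≤ s^2 + st`, true since `t ≤ s`). Sum over `i ≤ D`: `∑ √i ≥ (2/3) D^(3/2) = (2/3) D √D`; divide by `√D`.
`cheb`: let `u a i = √(i / D a) ∈ [0,1]`, `m a = (∑_(i ∈ Icc 1 (D a)) u a i)/D a ≥ 2/3`, `g a i = u a i - m a`, `|g a i| ≤ 1`, `∑_i g a i = 0`. Over `z` in the product `Π` of the `Icc 1 (D a)`: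
`∑_z (∑_a g a (z a))^2 = ∑_(a,b) ∑_z g a (z a) g b (z b)`; for `a ≠ b` the inner sum is `0` (`Fintype.piFinset` sums: `Finset.prod_univ_sum`/`Finset.sum_prod_piFinset`: write `g a g b` as a
product over all indices of functions of one coordinate), for `a = b` it is `≤ ∏ D`. So the sum is `≤ M ∏ D`. A `z` of the filter has `∑_a g a (z a) ≤ (2/3 - ε) M - ∑ m a ≤ -ε M`, so its square is `≥ ε^2 M^2`:
`# * ε^2 M^2 ≤ M ∏ D`. For `M = 0` the claim is `0 ≤ 1`. -/

namespace Pool.Agent.H4.JP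

open Finset

private theorem sqrt_sum_aux (D : ℕ) :
    (2 / 3 : ℝ) * (D * Real.sqrt D) ≤ ∑ i ∈ Icc 1 D, Real.sqrt (i : ℝ) := by
  induction D with
  | zero => simp
  | succ D ih =>
    rw [Finset.sum_Icc_succ_top (by omega)]
    refine le_trans ?_ (add_le_add_left ih _)
    push_cast
    set t := Real.sqrt (D : ℝ) with ht
    set s := Real.sqrt ((D : ℝ) + 1) with hs
    have h1 : t ^ 2 = D := Real.sq_sqrt (by positivity)
    have h2 : s ^ 2 = D + 1 := Real.sq_sqrt (by positivity)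
    have ht0 : 0 ≤ t := Real.sqrt_nonneg _
    have hs0 : 0 < s := Real.sqrt_pos.mpr (by positivity)
    have hts : t ≤ s := Real.sqrt_le_sqrt (by linarith)
    have h3 : s ^ 2 - t ^ 2 = 1 := by linarith
    rw [← h1, show t ^ 2 + 1 = s ^ 2 by linarith]
    have h4 : 0 ≤ (s + t) * (3 * s - 2 * (s ^ 3 - t ^ 3)) := by
      have h5 : (s + t) * (3 * s - 2 * (s ^ 3 - t ^ 3)) =
          3 * s * (s + t) - 2 * (s ^ 2 + s * t + t ^ 2) * (s ^ 2 - t ^ 2) := by ring
      rw [h5, h3]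
      nlinarith [mul_nonneg ht0 (sub_nonneg.mpr hts), mul_nonneg hs0.le (sub_nonneg.mpr hts)]
    have h6 : 0 ≤ 3 * s - 2 * (s ^ 3 - t ^ 3) := nonneg_of_mul_nonneg_right h4 (by linarith)
    nlinarith [h6]

theorem sqrt_sum (D : ℕ) (hD : 1 ≤ D) :
    (2 / 3 : ℝ) * D ≤ ∑ i ∈ Icc 1 D, Real.sqrt ((i : ℝ) / D) := by
  have hD' : (0 : ℝ) < D := by exact_mod_cast hD
  have hs : 0 < Real.sqrt (D : ℝ) := Real.sqrt_pos.mpr hD'
  have h1 : ∑ i ∈ Icc 1 D, Real.sqrt ((i : ℝ) / D) =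
      (∑ i ∈ Icc 1 D, Real.sqrt (i : ℝ)) / Real.sqrt D := by
    rw [Finset.sum_div]
    refine Finset.sum_congr rfl fun i _ => ?_
    rw [Real.sqrt_div (by positivity)]
  rw [h1, le_div_iff₀ hs]
  have := sqrt_sum_aux D
  linarith

private theorem cheb_two {M : ℕ} (t : Fin M → Finset ℕ) (g : Fin M → ℕ → ℝ) (a b : Fin M)
    (hab : a ≠ b) (h0 : ∑ i ∈ t a, g a i = 0) :
    ∑ z ∈ Fintype.piFinset t, g a (z a) * g b (z b) = 0 := by
  have h1 : ∀ z : Fin M → ℕ, g a (z a) * g b (z b) =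
      ∏ c, (if c = a then g a (z c) else 1) * (if c = b then g b (z c) else 1) := by
    intro z
    rw [Finset.prod_mul_distrib, Finset.prod_ite_eq' Finset.univ a (fun c => g a (z c)),
      Finset.prod_ite_eq' Finset.univ b (fun c => g b (z c))]
    simp
  rw [Finset.sum_congr rfl fun z _ => h1 z]
  rw [← Finset.prod_univ_sum t (fun c i =>
    (if c = a then g a i else 1) * (if c = b then g b i else 1))]
  refine Finset.prod_eq_zero (Finset.mem_univ a) ?_
  rw [← h0]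
  refine Finset.sum_congr rfl fun i _ => ?_
  rw [if_pos rfl, if_neg hab, mul_one]

theorem cheb (M : ℕ) (D : Fin M → ℕ) (hD : ∀ a, 1 ≤ D a) (ε : ℝ) (hε : 0 < ε) :
    (((Fintype.piFinset fun a => Icc 1 (D a)).filter fun z : Fin M → ℕ =>
      ∑ a, Real.sqrt ((z a : ℝ) / D a) ≤ (2 / 3 - ε) * M).card : ℝ) * (M * ε ^ 2) ≤
      ∏ a, (D a : ℝ) := by
  rcases Nat.eq_zero_or_pos M with hM | hM
  · subst hM
    simp
  have hM' : (0 : ℝ) < M := by exact_mod_cast hM
  have hDr : ∀ a, (0 : ℝ) < D a := fun a => by exact_mod_cast hD a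
  set t : Fin M → Finset ℕ := fun a => Icc 1 (D a) with ht
  set u : Fin M → ℕ → ℝ := fun a i => Real.sqrt ((i : ℝ) / D a) with hu
  set m : Fin M → ℝ := fun a => (∑ i ∈ t a, u a i) / D a with hm
  set g : Fin M → ℕ → ℝ := fun a i => u a i - m a with hg
  have hcard : ∀ a, (t a).card = D a := fun a => by rw [ht]; simp
  have hu0 : ∀ a i, 0 ≤ u a i := fun a i => Real.sqrt_nonneg _
  have hu1 : ∀ a, ∀ i ∈ t a, u a i ≤ 1 := by
    intro a i hi
    rw [hu]
    refine Real.sqrt_le_one.mpr ?_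
    rw [div_le_one (hDr a)]
    have := (Finset.mem_Icc.mp hi).2
    exact_mod_cast this
  have hm23 : ∀ a, 2 / 3 ≤ m a := by
    intro a
    rw [hm]
    simp only
    rw [le_div_iff₀ (hDr a)]
    exact sqrt_sum (D a) (hD a)
  have hm0 : ∀ a, 0 ≤ m a := fun a => by have := hm23 a; linarith
  have hm1 : ∀ a, m a ≤ 1 := by
    intro a
    rw [hm]
    simp only
    rw [div_le_one (hDr a)]
    calc ∑ i ∈ t a, u a i ≤ ∑ i ∈ t a, (1 : ℝ) := Finset.sum_le_sum (hu1 a)
      _ = D a := by rw [Finset.sum_const, hcard]; simp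
  have hg0 : ∀ a, ∑ i ∈ t a, g a i = 0 := by
    intro a
    rw [hg]
    simp only
    rw [Finset.sum_sub_distrib, Finset.sum_const, hcard, nsmul_eq_mul, hm]
    simp only
    rw [mul_div_cancel₀ _ (hDr a).ne', sub_self]
  have hg1 : ∀ a, ∀ i ∈ t a, g a i ^ 2 ≤ 1 := by
    intro a i hi
    have h1 := hu0 a i
    have h2 := hu1 a i hi
    have h3 := hm0 a
    have h4 := hm1 a
    have h5 : |g a i| ≤ 1 := by
      rw [abs_le]
      constructor <;> simp only [hg] <;> linarith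
    rw [← sq_abs]
    have := abs_nonneg (g a i)
    nlinarith
  have hPi : ((Fintype.piFinset t).card : ℝ) = ∏ a, (D a : ℝ) := by
    rw [Fintype.card_piFinset]
    push_cast
    exact Finset.prod_congr rfl fun a _ => by rw [hcard]
  have hsum : ∑ z ∈ Fintype.piFinset t, (∑ a, g a (z a)) ^ 2 ≤ M * ∏ a, (D a : ℝ) := by
    have h1 : ∀ z : Fin M → ℕ, (∑ a, g a (z a)) ^ 2 = ∑ a, ∑ b, g a (z a) * g b (z b) := by
      intro z
      rw [sq, Finset.sum_mul_sum]
    rw [Finset.sum_congr rfl fun z _ => h1 z, Finset.sum_comm]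
    have h2 : ∀ a, ∑ z ∈ Fintype.piFinset t, ∑ b, g a (z a) * g b (z b) ≤
        ∏ a, (D a : ℝ) := by
      intro a
      rw [Finset.sum_comm]
      rw [Finset.sum_eq_single a]
      · rw [← hPi]
        calc ∑ z ∈ Fintype.piFinset t, g a (z a) * g a (z a) ≤
            ∑ z ∈ Fintype.piFinset t, (1 : ℝ) := by
              refine Finset.sum_le_sum fun z hz => ?_
              rw [← sq]
              exact hg1 a _ ((Fintype.mem_piFinset.mp hz) a)
          _ = _ := by simp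
      · intro b _ hba
        exact cheb_two t g a b (Ne.symm hba) (hg0 a)
      · intro h
        exact absurd (Finset.mem_univ a) h
    calc ∑ a, ∑ z ∈ Fintype.piFinset t, ∑ b, g a (z a) * g b (z b) ≤
        ∑ _a : Fin M, ∏ a, (D a : ℝ) := Finset.sum_le_sum fun a _ => h2 a
      _ = M * ∏ a, (D a : ℝ) := by simp
  set F := (Fintype.piFinset t).filter fun z : Fin M → ℕ => ∑ a, u a (z a) ≤ (2 / 3 - ε) * M
    with hF
  have hFl : (F.card : ℝ) * (ε ^ 2 * M ^ 2) ≤ ∑ z ∈ Fintype.piFinset t, (∑ a, g a (z a)) ^ 2 := by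
    calc (F.card : ℝ) * (ε ^ 2 * M ^ 2) = ∑ _z ∈ F, (ε ^ 2 * M ^ 2 : ℝ) := by
          rw [Finset.sum_const, nsmul_eq_mul]
      _ ≤ ∑ z ∈ F, (∑ a, g a (z a)) ^ 2 := by
          refine Finset.sum_le_sum fun z hz => ?_
          have h1 := (Finset.mem_filter.mp hz).2
          have h2 : ∑ a, g a (z a) = ∑ a, u a (z a) - ∑ a, m a := by
            rw [hg]
            simp only
            rw [Finset.sum_sub_distrib]
          have h3 : (2 / 3 : ℝ) * M ≤ ∑ a, m a := by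
            calc (2 / 3 : ℝ) * M = ∑ _a : Fin M, (2 / 3 : ℝ) := by simp [mul_comm]
              _ ≤ _ := Finset.sum_le_sum fun a _ => hm23 a
          have h4 : ∑ a, g a (z a) ≤ -(ε * M) := by
            rw [h2]; nlinarith
          have h5 : 0 < ε * M := by positivity
          nlinarith
      _ ≤ _ := Finset.sum_le_sum_of_subset_of_nonneg (Finset.filter_subset _ _)
          fun _ _ _ => sq_nonneg _
  have h6 : (F.card : ℝ) * (ε ^ 2 * M ^ 2) ≤ M * ∏ a, (D a : ℝ) := hFl.trans hsum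
  have h7 : M * ((F.card : ℝ) * (M * ε ^ 2)) ≤ M * ∏ a, (D a : ℝ) := by
    calc M * ((F.card : ℝ) * (M * ε ^ 2)) = (F.card : ℝ) * (ε ^ 2 * M ^ 2) := by ring
      _ ≤ _ := h6
  exact le_of_mul_le_mul_left h7 hM'

end Pool.Agent.H4.JP
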