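import Pool.Agent.H4.JP.RKB

/-! # [H4 JP CNJ] The count under the condition `9 s < 2 ϱ r n` -/

namespace Pool.Agent.H4.JP

open Finset Polynomial Pool.Agent.H72.ES Pool.Agent.H87.SA2 Pool.Agent.H8.AW Pool.Agent.H52.AC
  Pool.Agent.H97.NW Pool.Agent.H97.TR Pool.Agent.H98.MR Pool.Agent.H98.MQ Pool.Agent.H37.TU
  Pool.Agent.H97.TU Pool.Agent.H26.TR

theorem Nq_lower {m n : ℕ} (P : Fin m → Ptr n) (δ Y : ℝ) (hδ : 0 < δ) (hδ2 : δ * (n + 2) < 1)
    (v : Fin m) (hell : 0 < (P v).hh) (hell' : (P v).hh ≤ δ * Y) :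
    1 ≤ Nq P Y v ∧ Y / (P v).hh * (1 - n * δ) ≤ (Nq P Y v : ℝ) := by
  have hn0 : (0 : ℝ) ≤ n := Nat.cast_nonneg n
  have hδY : 0 < δ * Y := hell.trans_le hell'
  have hY0 : 0 < Y := by
    by_contra h
    push Not at h
    nlinarith
  have hq : (n : ℝ) + 2 ≤ Y / (P v).hh := by
    rw [le_div_iff₀ hell]
    nlinarith [hell]
  have hDf : Y / (P v).hh - 1 < (Dq P Y v : ℝ) := by
    have := Nat.lt_floor_add_one (Y / (P v).hh)
    unfold Dq
    linarith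
  have hdn : ((P v).d : ℝ) ≤ n := by exact_mod_cast (P v).C.dn
  have hdD : (P v).d + 1 ≤ Dq P Y v + 1 := by
    have h1 : ((n + 1 : ℕ) : ℝ) < ((Dq P Y v + 1 : ℕ) : ℝ) := by
      push_cast
      linarith
    have h2 : n + 1 < Dq P Y v + 1 := by exact_mod_cast h1
    have h3 := (P v).C.dn
    omega
  refine ⟨?_, ?_⟩
  · unfold Nq
    omega
  · have h1 : (Nq P Y v : ℝ) = (Dq P Y v : ℝ) + 1 - (P v).d := by
      unfold Nq
      rw [Nat.cast_sub (by omega)]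
      push_cast
      ring
    have h3 : (n : ℝ) ≤ Y / (P v).hh * (n * δ) := by
      have h4 : 1 ≤ Y / (P v).hh * δ := by
        rw [div_mul_eq_mul_div, le_div_iff₀ hell]
        linarith
      nlinarith
    rw [h1]
    linarith

/-- the choice of the small numbers -/
theorem exists_epsJ {n r s : ℕ} {ϱ : ℝ} (hs : 1 ≤ s) (h : NumJ n r s ϱ) (ν : ℕ) :
    ∃ lam ε δ : ℝ, 0 < lam ∧ lam ^ 2 * s = 2 * ϱ * (r * n) ∧ 0 < ε ∧ 0 < δ ∧ δ * (ν + 2) < 1 ∧
      δ ≤ 1 ∧ 2 + 3 * δ ≤ (1 - ν * δ) * (lam * (2 / 3 - ε)) := by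
  unfold NumJ at h
  have hs0 : (0 : ℝ) < s := by exact_mod_cast hs
  have hA : (9 : ℝ) < 2 * ϱ * (r * n) / s := by
    rw [lt_div_iff₀ hs0]
    exact h
  obtain ⟨lam, hlam⟩ : ∃ lam : ℝ, lam = Real.sqrt (2 * ϱ * (r * n) / s) := ⟨_, rfl⟩
  have hlam3 : 3 < lam := by
    rw [hlam]
    apply Real.lt_sqrt_of_sq_lt
    norm_num
    exact hA
  have hsq : lam ^ 2 * s = 2 * ϱ * (r * n) := by
    rw [hlam, Real.sq_sqrt (by linarith)]
    field_simp
  obtain ⟨θ, hθ⟩ : ∃ θ : ℝ, θ = (2 * lam / 3 - 2) / 3 := ⟨_, rfl⟩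
  have hθ0 : 0 < θ := by
    rw [hθ]
    linarith
  have hν : (0 : ℝ) ≤ ν := Nat.cast_nonneg ν
  obtain ⟨δ, hδ⟩ : ∃ δ : ℝ, δ = min (2 * θ / (3 + ν * (2 + 2 * θ))) (1 / (2 * (ν + 2))) := ⟨_, rfl⟩
  have hD : 0 < 3 + (ν : ℝ) * (2 + 2 * θ) := by positivity
  have hδ0 : 0 < δ := by
    rw [hδ]
    exact lt_min (by positivity) (by positivity)
  have hδ1 : δ * (3 + ν * (2 + 2 * θ)) ≤ 2 * θ := by
    have h1 : δ ≤ 2 * θ / (3 + ν * (2 + 2 * θ)) := by
      rw [hδ]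
      exact min_le_left _ _
    rwa [le_div_iff₀ hD] at h1
  have hδ2 : δ * (2 * (ν + 2)) ≤ 1 := by
    have h1 : δ ≤ 1 / (2 * (ν + 2)) := by
      rw [hδ]
      exact min_le_right _ _
    rwa [le_div_iff₀ (by positivity)] at h1
  have hεl : lam * (2 / 3 - θ / lam) = 2 + 2 * θ := by
    have h1 : lam * (θ / lam) = θ := by field_simp
    rw [mul_sub, h1, hθ]
    ring
  refine ⟨lam, θ / lam, δ, by linarith, hsq, by positivity, hδ0, ?_, ?_, ?_⟩
  · nlinarith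
  · nlinarith
  · rw [hεl]
    nlinarith

theorem exists_cntJ (n r s ν : ℕ) (ϱ : ℝ) (hϱ : 0 < ϱ) (hϱ1 : ϱ ≤ 1) (hr : 1 ≤ r) (hs : 1 ≤ s)
    (h : NumJ n r s ϱ) :
    ∃ M : ℕ, 1 ≤ M ∧ CntQ (2 * M) ν (rhoV M ϱ) (fun P PP => Str r n s P PP) := by
  obtain ⟨lam, ε, δ, hlam, hsq, hε, hδ, hδν, hδ1, hmain⟩ := exists_epsJ hs h ν
  obtain ⟨M0, hM0⟩ := exists_nat_ge (2 * r / ε ^ 2)
  obtain ⟨M, hMdef⟩ : ∃ M : ℕ, M = M0 + 1 := ⟨_, rfl⟩
  have hM1 : 1 ≤ M := by omega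
  have hMr : (1 : ℝ) ≤ M := by exact_mod_cast hM1
  have hMε : 2 * (r : ℝ) ≤ M * ε ^ 2 := by
    have h1 : (M0 : ℝ) ≤ M := by
      rw [hMdef]
      push_cast
      linarith
    have h2 := hM0.trans h1
    rwa [div_le_iff₀ (by positivity)] at h2
  have hr0 : (1 : ℝ) ≤ r := by exact_mod_cast hr
  have hs0 : (1 : ℝ) ≤ s := by exact_mod_cast hs
  have hν : (0 : ℝ) ≤ ν := Nat.cast_nonneg ν
  have h1ν : 0 < 1 - (ν : ℝ) * δ := by nlinarith
  have hK0 : 1 ≤ 1 / δ := by rw [le_div_iff₀ hδ]; linarith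
  refine ⟨M, hM1, δ, 1 / δ, 1, hδ, hδ1, hK0, le_rfl, ?_⟩
  intro P PP hStr hell Y hY
  have hell' : ∀ v, (P v).hh ≤ δ * Y := by
    intro v
    have h1 := hY v
    have h2 : δ * (1 / δ * (P v).hh) ≤ δ * Y := mul_le_mul_of_nonneg_left h1 hδ.le
    rwa [← mul_assoc, mul_one_div_cancel hδ.ne', one_mul] at h2
  have hN := fun v => Nq_lower P δ Y hδ hδν v (hell v) (hell' v)
  have hY0 : 0 < Y := by
    have h1 := (hell ⟨0, by omega⟩).trans_le (hell' ⟨0, by omega⟩)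
    by_contra h
    push Not at h
    nlinarith
  refine ⟨fun v => (hN v).1, ?_⟩
  obtain ⟨Z, R, hZ, hst, hR⟩ := hStr
  have hρ0 : ∀ v, 0 < rhoV M ϱ v := fun v => by
    unfold rhoV
    split_ifs
    · exact one_pos
    · exact hϱ
  have hρ1 : ∀ v, rhoV M ϱ v ≤ 1 := fun v => by
    unfold rhoV
    split_ifs
    · exact le_rfl
    · exact hϱ1
  have hrank := rank_SPN P (Dq P Y) (Nq P Y) (fun v => (hN v).1) (fun v => rhoV M ϱ v * (P v).hh)
    (fun v => mul_pos (hρ0 v) (hell v)) ((((2 * M : ℕ) : ℝ) + δ) * Y) PP Z R hst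
    (Y * (1 - ν * δ) * lam) (2 * (δ * Y)) ε (by positivity) hε (by
      intro b hb a
      simp only [rhoV_cv, rhoV_an, one_mul]
      have h1 := (hN (cv a)).2
      have h2 := (hN (an a)).2
      have h3 := hell (cv a)
      have h4 := hell (an a)
      have h5 := hR b hb a
      have h5' : (r : ℝ) * n * (R b a).card ≤ s * ((P (cv a)).d * (P (an a)).d) := by
        exact_mod_cast h5
      have e1 : Y * (1 - ν * δ) ≤ (P (cv a)).hh * Nq P Y (cv a) := by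
        have := mul_le_mul_of_nonneg_left h1 h3.le
        refine le_trans (le_of_eq ?_) this
        field_simp
      have e2 : Y * (1 - ν * δ) ≤ (P (an a)).hh * Nq P Y (an a) := by
        have := mul_le_mul_of_nonneg_left h2 h4.le
        refine le_trans (le_of_eq ?_) this
        field_simp
      have e0 : 0 ≤ Y * (1 - ν * δ) := by positivity
      have e3 : (Y * (1 - ν * δ)) * (Y * (1 - ν * δ)) ≤
          ((P (cv a)).hh * Nq P Y (cv a)) * ((P (an a)).hh * Nq P Y (an a)) :=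
        mul_le_mul e1 e2 e0 (e0.trans e1)
      have e4 : lam ^ 2 * (R b a).card ≤ 2 * ϱ * ((P (cv a)).d * (P (an a)).d) := by
        have e5 : (lam ^ 2 * s) * (R b a).card ≤ 2 * ϱ * (s * ((P (cv a)).d * (P (an a)).d)) := by
          rw [hsq]
          calc 2 * ϱ * (r * n) * ((R b a).card : ℝ) = 2 * ϱ * (r * n * (R b a).card) := by ring
            _ ≤ _ := mul_le_mul_of_nonneg_left h5' (by positivity)
        have e6 : (s : ℝ) * (lam ^ 2 * (R b a).card) ≤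
            s * (2 * ϱ * ((P (cv a)).d * (P (an a)).d)) := by
          refine le_trans (le_of_eq ?_) (e5.trans (le_of_eq ?_)) <;> ring
        exact le_of_mul_le_mul_left e6 (by linarith)
      calc (Y * (1 - ν * δ) * lam) ^ 2 * ((R b a).card : ℝ)
          = ((Y * (1 - ν * δ)) * (Y * (1 - ν * δ))) * (lam ^ 2 * (R b a).card) := by ring
        _ ≤ (((P (cv a)).hh * Nq P Y (cv a)) * ((P (an a)).hh * Nq P Y (an a))) *
            (2 * ϱ * ((P (cv a)).d * (P (an a)).d)) :=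
          mul_le_mul e3 e4 (by positivity) (by positivity)
        _ = _ := by ring) (by
      intro a
      have h1 := hell' (cv a)
      have h2 := hell' (an a)
      have h3 := mul_le_of_le_one_left (hell (cv a)).le (hρ1 (cv a))
      have h4 := mul_le_of_le_one_left (hell (an a)).le (hρ1 (an a))
      linarith) (by
      push_cast
      have h1 : (2 * (M : ℝ) + δ) * Y + M * (2 * (δ * Y)) ≤ (2 + 3 * δ) * (M * Y) := by
        have h2 : δ * Y ≤ M * (δ * Y) := le_mul_of_one_le_left (by positivity) hMr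
        linarith
      have h2 := mul_le_mul_of_nonneg_right hmain (show 0 ≤ (M : ℝ) * Y by positivity)
      refine (h1.trans h2).trans (le_of_eq ?_)
      ring)
  -- the conclusion
  obtain ⟨F, hF⟩ : ∃ F : ℕ, F = Module.finrank ℂ (SPN P (Dq P Y) (Nq P Y)
    (fun v => rhoV M ϱ v * (P v).hh) ((((2 * M : ℕ) : ℝ) + δ) * Y) PP) := ⟨_, rfl⟩
  rw [← hF] at hrank ⊢
  obtain ⟨U, hU⟩ : ∃ U : ℕ, U = ∏ v, (Nq P Y v * (P v).d) := ⟨_, rfl⟩
  have hU' : ∏ v, ((Nq P Y v : ℝ) * (P v).d) = U := by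
    rw [hU]
    push_cast
    rfl
  rw [hU'] at hrank
  rw [← hU]
  have h1 : (Z.card : ℝ) ≤ r := by exact_mod_cast hZ
  have hU0 : (0 : ℝ) ≤ U := Nat.cast_nonneg _
  have hF0 : (0 : ℝ) ≤ F := Nat.cast_nonneg _
  have h2 : (F : ℝ) * (2 * r) ≤ r * U :=
    ((mul_le_mul_of_nonneg_left hMε hF0).trans hrank).trans (mul_le_mul_of_nonneg_right h1 hU0)
  have h3 : (r : ℝ) * ((1 + 1) * F) ≤ r * (1 * U) := by linarith
  have h4 := le_of_mul_le_mul_left h3 (by linarith : (0 : ℝ) < r)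
  exact_mod_cast h4

end Pool.Agent.H4.JP
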