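import Pool.Agent.H26.TR.SCR
import Pool.Agent.H98.MQ.Defs

/-!
# [H4 JP] MP_821da1_nt, the uniform Siegel theorem with the condition `9 s < 2 ϱ r n`: definitions

The count of THEOREM W (`Pool/Agent/H98/MQ`, `H26/TR`) is replaced by a truncated one: `m = 2 M` points in `M` pairs
(`cv a`, `an a`); the set `PP` of tuples of branches is the union over the roots `b` of `q` of products of sets `R b a` of
pairs. In one pair the conditions of weight at most `ξ` have rank at most `min (dimension, # ≤ A ξ²)`; the rank of the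
conditions of total weight `< T` on the tensor product is at most the number of tuples of jumps of total weight `< T`
(`TEN`), a small part of the dimension for `M` large (`CHB`, Chebyshev) since the mean weight `(2/3) √(2 ϱ r n / s)` is more
than `2`.

`NumJ`: the condition. `Str`: the structure of `PP`. `wf P D N v k j`: the factor of the functional `Vq` at the point `v`,
cell `k`, branch `j`; `VV P D N K p`: the functional. `AuxB`: the statement of `auxB_q` for a general hypothesis `Q`.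
-/

namespace Pool.Agent.H4.JP

open Finset Polynomial Pool.Agent.H72.ES Pool.Agent.H87.SA2 Pool.Agent.H8.AW Pool.Agent.H52.AC
  Pool.Agent.H97.NW Pool.Agent.H97.TR Pool.Agent.H98.MR Pool.Agent.H98.MQ Pool.Agent.H37.TU
  Pool.Agent.H97.TU

/-- the numerical condition -/
def NumJ (n r s : ℕ) (ϱ : ℝ) : Prop := 9 * (s : ℝ) < 2 * ϱ * (r * n)

/-- the structure of the set of tuples of branches: a union of at most `r` products of sets of pairs, each pair set
has relative density at most `s / (r n)` -/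
def Str {M ν : ℕ} (r n s : ℕ) (P : Fin (2 * M) → Ptr ν) (PP : Finset (∀ v, Fin (P v).d)) : Prop :=
  ∃ (Z : Finset ℂ) (R : ℂ → ∀ a : Fin M, Finset (Fin (P (cv a)).d × Fin (P (an a)).d)),
    Z.card ≤ r ∧ (∀ x ∈ PP, ∃ b ∈ Z, ∀ a, (x (cv a), x (an a)) ∈ R b a) ∧
    ∀ b ∈ Z, ∀ a, r * n * (R b a).card ≤ s * ((P (cv a)).d * (P (an a)).d)

/-- the factor of the functional at the point `v` -/
noncomputable def wf {m n : ℕ} (P : Fin m → Ptr n) (D N : Fin m → ℕ) (v : Fin m) (k : ℕ)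
    (j : Fin (P v).d) (μ : Fin (N v) × Fin (P v).d) : ℂ :=
  ∑ r : Fin (P v).C.pd.e, PowerSeries.coeff ((P v).C.pd.e * k + r)
    (uu (P v).C.pd.q (P v).C.pd.e ((P v).C.pd.x j) (D v) μ.1 μ.2)

/-- the functional: the sum of the coefficients of the cell `K` at the tuple `p` -/
noncomputable def VV {m n : ℕ} (P : Fin m → Ptr n) (D N : Fin m → ℕ) (K : Fin m → ℕ)
    (p : ∀ v, Fin (P v).d) (μ : Mq P N) : ℂ :=
  ∏ v, wf P D N v (K v) (p v) (μ v)

/-- the span of the functionals of weight `< T` at the tuples of `PP` -/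
noncomputable def SPN {m n : ℕ} (P : Fin m → Ptr n) (D N : Fin m → ℕ) (ℓ : Fin m → ℝ) (T : ℝ)
    (PP : Finset (∀ v, Fin (P v).d)) : Submodule ℂ (Mq P N → ℂ) :=
  Submodule.span ℂ {f | ∃ K p, K ∈ cells ℓ T ∧ p ∈ PP ∧ f = VV P D N K p}

/-- the auxiliary function for a hypothesis `Q` -/
def AuxB (m n κ : ℕ) (ϱ : Fin m → ℝ)
    (Q : ∀ P : Fin m → Ptr n, Finset (∀ v, Fin (P v).d) → Prop) : Prop :=
  ∃ η : ℝ, 0 < η ∧ η ≤ 1 ∧ ∀ δ : ℝ, 0 < δ → ∃ (c : ℕ) (K1 : ℝ), 1 ≤ c ∧ 1 ≤ K1 ∧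
    ∀ (P : Fin m → Ptr n) (PP : Finset (∀ v, Fin (P v).d)), StbR P PP → Q P PP →
      ∀ ρ : Fin m → ℝ, (∀ v, Rcr κ c (P v) (ρ v)) → ∀ Y : ℝ, (∀ v, K1 * (P v).hh ≤ Y) →
      (∀ v, 1 ≤ Nq P Y v) ∧ ∃ A : Mq P (Nq P Y) → ℤ, A ≠ 0 ∧
        (∀ μ, |(A μ : ℝ)| ≤ Real.exp (δ * Y)) ∧
        ∀ p ∈ PP, ∀ k : Fin m → ℕ,
          ∑ v, ϱ v * (P v).hh * ((k v / (P v).C.pd.e : ℕ) : ℝ) < (m + η) * Y →
          Bq P (Dq P Y) (Nq P Y) A p k = 0

/-- the numbers of unknowns and the rank of the conditions: what the count has to give for the hypothesis `Q` -/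
def CntQ (m n : ℕ) (ϱ : Fin m → ℝ)
    (Q : ∀ P : Fin m → Ptr n, Finset (∀ v, Fin (P v).d) → Prop) : Prop :=
  ∃ (η K0 : ℝ) (r : ℕ), 0 < η ∧ η ≤ 1 ∧ 1 ≤ K0 ∧ 1 ≤ r ∧ ∀ (P : Fin m → Ptr n)
    (PP : Finset (∀ v, Fin (P v).d)), Q P PP → (∀ v, 0 < (P v).hh) → ∀ Y : ℝ,
      (∀ v, K0 * (P v).hh ≤ Y) → (∀ v, 1 ≤ Nq P Y v) ∧
      (r + 1) * Module.finrank ℂ (SPN P (Dq P Y) (Nq P Y) (fun v => ϱ v * (P v).hh)
        ((m + η) * Y) PP) ≤ r * ∏ v, (Nq P Y v * (P v).d)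

end Pool.Agent.H4.JP
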