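import Pool.Agent.H4.JP.GAA

/-! # [H4 JP GAB] The auxiliary function with the bound `exp (δ Y)` from a bound for the rank

Copy of `Pool/Agent/H98/MQ/QAB.lean`. -/

namespace Pool.Agent.H4.JP

open Finset Polynomial Pool.Agent.H72.ES Pool.Agent.H87.SA2 Pool.Agent.H8.AW Pool.Agent.H52.AC
  Pool.Agent.H97.NW Pool.Agent.H97.TR Pool.Agent.H98.MR Pool.Agent.H98.MQ

/-- one factor -/
private theorem auxB_one_q {n κ c : ℕ} (P : Ptr n) (ρ : ℝ) (hc : 1 ≤ c) (h : Rcr κ c P ρ) (K : ℕ) :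
    (P.C.pd.e : ℝ) * ((2 * |(P.x : ℝ)| ^ κ) ^ n *
      (2 * P.C.pd.q * ρ) ^ (P.C.pd.e * (K + 1))) ≤
      Real.exp (Real.log n.factorial + n * ((κ + 1) * P.hh) +
        3 / c * (n.factorial * (P.hh * K + P.hh))) := by
  have hcr : (1 : ℝ) ≤ c := by exact_mod_cast hc
  have hρ2 := h.ρ2
  have hlρ : Real.log ρ ≤ P.hh / c := by
    rw [le_div_iff₀ (by linarith)]
    have := h.ell_ge.1
    have := h.ell_le
    linarith
  have hlρ0 : 0 ≤ Real.log ρ := Real.log_nonneg (by linarith)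
  have hq := h.q_le
  have hq0 : (1 : ℝ) ≤ P.C.pd.q := by exact_mod_cast P.C.pd.q_pos
  have h1 : 2 * (P.C.pd.q : ℝ) * ρ ≤ Real.exp (3 * P.hh / c) := by
    have e1 : 2 * (P.C.pd.q : ℝ) * ρ ≤ ρ * ρ * ρ := by
      apply mul_le_mul_of_nonneg_right _ (by linarith)
      exact mul_le_mul hρ2 hq (by linarith) (by linarith)
    have e2 : ρ * ρ * ρ = Real.exp (3 * Real.log ρ) := by
      rw [show (3 : ℝ) * Real.log ρ = Real.log ρ + Real.log ρ + Real.log ρ by ring, Real.exp_add,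
        Real.exp_add, Real.exp_log (by linarith)]
    rw [e2] at e1
    refine e1.trans (Real.exp_le_exp.2 ?_)
    have e3 : 3 * P.hh / c = 3 * (P.hh / c) := by ring
    rw [e3]
    linarith
  have h0 : 0 ≤ 2 * (P.C.pd.q : ℝ) * ρ := by
    have : 0 ≤ ρ := by linarith
    positivity
  have hfac : P.C.pd.e ≤ n.factorial := P.C.e_le.trans (Nat.factorial_le P.C.dn)
  have h2 : P.C.pd.e * (K + 1) ≤ n.factorial * (K + 1) := Nat.mul_le_mul_right (K + 1) hfac
  have h3 : (2 * (P.C.pd.q : ℝ) * ρ) ^ (P.C.pd.e * (K + 1)) ≤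
      Real.exp (3 * P.hh / c) ^ (n.factorial * (K + 1)) := by
    refine (pow_le_pow_left₀ h0 h1 _).trans ?_
    apply pow_le_pow_right₀ _ h2
    apply Real.one_le_exp
    have : 0 ≤ P.hh / c := hlρ0.trans hlρ
    have e3 : 3 * P.hh / c = 3 * (P.hh / c) := by ring
    rw [e3]
    linarith
  have h4 : (P.C.pd.e : ℝ) ≤ Real.exp (Real.log n.factorial) := by
    rw [Real.exp_log (by exact_mod_cast Nat.factorial_pos n)]
    exact_mod_cast hfac
  have hx0 : 0 < |(P.x : ℝ)| := by linarith [h.x1]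
  have hU0 : 0 < 2 * |(P.x : ℝ)| ^ κ := by positivity
  have hU : (2 * |(P.x : ℝ)| ^ κ) ^ n ≤ Real.exp (n * ((κ + 1) * P.hh)) := by
    have e1 : 2 * |(P.x : ℝ)| ^ κ ≤ Real.exp ((κ + 1) * P.hh) := by
      calc 2 * |(P.x : ℝ)| ^ κ = Real.exp (Real.log (2 * |(P.x : ℝ)| ^ κ)) :=
            (Real.exp_log hU0).symm
        _ ≤ _ := Real.exp_le_exp.2 (h.log_U hc)
    rw [Real.exp_nat_mul]
    exact pow_le_pow_left₀ hU0.le e1 n
  rw [← Real.exp_nat_mul] at h3
  have h5 := mul_le_mul hU h3 (pow_nonneg h0 _) (Real.exp_pos _).le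
  have h6 := mul_le_mul h4 h5 (by positivity) (Real.exp_pos _).le
  refine h6.trans (le_of_eq ?_)
  rw [← Real.exp_add, ← Real.exp_add]
  congr 1
  push_cast
  ring

theorem auxB_g (m n κ : ℕ) (hm : 1 ≤ m) (hn : 1 ≤ n) (ϱ : Fin m → ℝ)
    (hϱ : ∀ v, 0 < ϱ v) (r0 : ℝ) (hr0 : 0 < r0) (hrϱ : ∀ v, r0 ≤ ϱ v)
    (Q : ∀ P : Fin m → Ptr n, Finset (∀ v, Fin (P v).d) → Prop) (hQ : CntQ m n ϱ Q) :
    AuxB m n κ ϱ Q := by
  obtain ⟨η, K0, r, hη, hη1, hK0, hr, H⟩ := hQ
  refine ⟨η, hη, hη1, ?_⟩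
  intro δ hδ
  obtain ⟨f, hf⟩ : ∃ f : ℝ, f = (n.factorial : ℝ) := ⟨_, rfl⟩
  have hf1 : 1 ≤ f := by
    rw [hf]
    exact_mod_cast Nat.factorial_pos n
  have hlf : 0 ≤ Real.log f := Real.log_nonneg hf1
  have hnr : (1 : ℝ) ≤ n := by exact_mod_cast hn
  have hmr : (1 : ℝ) ≤ m := by exact_mod_cast hm
  have hln : 0 ≤ Real.log n := Real.log_nonneg hnr
  obtain ⟨C1, hC1⟩ : ∃ C1 : ℝ, C1 = 2 * m * Real.log f + 3 * (f * ((m + 1) / r0 + m)) := ⟨_, rfl⟩
  have hC10 : 0 ≤ C1 := by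
    rw [hC1]
    positivity
  obtain ⟨C2, hC2⟩ : ∃ C2 : ℝ, C2 = 6 + 2 * m * Real.log n + 2 * m + C1 := ⟨_, rfl⟩
  have hC20 : 0 ≤ C2 := by
    rw [hC2]
    positivity
  obtain ⟨c0, hc0⟩ := exists_nat_ge (2 * r * C2 / δ)
  obtain ⟨K1, hK1⟩ : ∃ K1 : ℝ, K1 = max K0 (2 * r * m * n * (κ + 1) / δ) := ⟨_, rfl⟩
  have hK10 : K0 ≤ K1 := by
    rw [hK1]
    exact le_max_left _ _
  have hK11 : 2 * r * m * n * (κ + 1) / δ ≤ K1 := by
    rw [hK1]
    exact le_max_right _ _
  refine ⟨max c0 1, K1, le_max_right _ _, hK0.trans hK10, ?_⟩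
  obtain ⟨c, hcdef⟩ : ∃ c, c = max c0 1 := ⟨_, rfl⟩
  rw [← hcdef]
  have hc1 : 1 ≤ c := by rw [hcdef]; exact le_max_right _ _
  have hcc0 : (c0 : ℝ) ≤ c := by
    rw [hcdef]
    exact_mod_cast le_max_left _ _
  have hcr : (1 : ℝ) ≤ c := by exact_mod_cast hc1
  have hcδ : r * C2 ≤ δ / 2 * c := by
    have h1 := (div_le_iff₀ hδ).1 (hc0.trans hcc0)
    linarith
  intro P PP hst hcard ρ hRc Y hY
  -- the size of ell
  have hl2 : (1 : ℝ) / 2 ≤ Real.log 2 := by
    have := Real.log_two_gt_d9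
    linarith
  have hell : ∀ v, (c : ℝ) / 2 ≤ (P v).hh := by
    intro v
    have h1 := (hRc v).ell_ge.2
    have h2 := (hRc v).ell_le
    have h3 : c * (1 / 2 : ℝ) ≤ c * Real.log 2 := mul_le_mul_of_nonneg_left hl2 (by linarith)
    linarith
  have hell0 : ∀ v, 0 < (P v).hh := fun v => lt_of_lt_of_le (by linarith) (hell v)
  have hY0' : ∀ v, K0 * (P v).hh ≤ Y := by
    intro v
    have h1 := hY v
    have h2 : K0 * (P v).hh ≤ K1 * (P v).hh := mul_le_mul_of_nonneg_right hK10 (hell0 v).le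
    linarith
  have hYell : ∀ v, (P v).hh ≤ Y := by
    intro v
    have h1 := hY0' v
    have h2 : 1 * (P v).hh ≤ K0 * (P v).hh := mul_le_mul_of_nonneg_right hK0 (hell0 v).le
    linarith
  have hYc : (1 : ℝ) ≤ 2 * Y / c := by
    rw [le_div_iff₀ (by linarith)]
    have h1 := hell ⟨0, by omega⟩
    have h2 := hYell ⟨0, by omega⟩
    linarith
  have hY0 : 0 < Y := lt_of_lt_of_le (hell0 ⟨0, by omega⟩) (hYell ⟨0, by omega⟩)
  have hYc0 : 0 ≤ Y / c := by positivity
  obtain ⟨S, hS⟩ : ∃ S : ℝ, S = ∑ v, (P v).hh := ⟨_, rfl⟩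
  have hS0 : 0 ≤ S := by
    rw [hS]
    exact Finset.sum_nonneg fun v _ => (hell0 v).le
  have hSδ : r * (n * ((κ + 1) * S)) ≤ δ / 2 * Y := by
    have h1 : ∀ v, r * m * n * (κ + 1) * (P v).hh ≤ δ / 2 * Y := by
      intro v
      have h2 : 2 * r * m * n * (κ + 1) / δ * (P v).hh ≤ Y :=
        (mul_le_mul_of_nonneg_right hK11 (hell0 v).le).trans (hY v)
      have h3 : δ / 2 * (2 * r * m * n * (κ + 1) / δ * (P v).hh) ≤ δ / 2 * Y :=
        mul_le_mul_of_nonneg_left h2 (by linarith)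
      have h4 : δ / 2 * (2 * r * m * n * (κ + 1) / δ * (P v).hh) =
          r * m * n * (κ + 1) * (P v).hh := by
        field_simp
      linarith
    have h2 : ∑ v : Fin m, r * m * n * (κ + 1) * (P v).hh ≤ ∑ _v : Fin m, δ / 2 * Y :=
      Finset.sum_le_sum fun v _ => h1 v
    rw [← Finset.mul_sum, ← hS, Finset.sum_const, Finset.card_univ, Fintype.card_fin,
      nsmul_eq_mul] at h2
    have h3 : (m : ℝ) * (r * (n * ((κ + 1) * S))) ≤ m * (δ / 2 * Y) := by
      refine le_trans (le_of_eq ?_) h2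
      ring
    exact le_of_mul_le_mul_left h3 (by linarith)
  obtain ⟨hN, hcount⟩ := H P PP hcard hell0 Y hY0'
  refine ⟨hN, ?_⟩
  have hTT : 0 < (m + η) * Y := by positivity
  have hB : ∀ K ∈ cells (fun v => ϱ v * (P v).hh) ((m + η) * Y), ∏ v, (((P v).C.pd.e : ℝ) *
      ((2 * |((P v).x : ℝ)| ^ κ) ^ n * (2 * (P v).C.pd.q * ρ v) ^ ((P v).C.pd.e * (K v + 1)))) ≤
      Real.exp (n * ((κ + 1) * S) + C1 * (Y / c)) := by
    intro K hK
    have hKs' : ∑ v, ϱ v * (P v).hh * (K v : ℝ) < (m + η) * Y := by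
      unfold H97.NW.cells at hK
      exact (Finset.mem_filter.1 hK).2
    have hKs : ∑ v, (P v).hh * (K v : ℝ) ≤ (m + 1) / r0 * Y := by
      have g1 : r0 * ∑ v, (P v).hh * (K v : ℝ) ≤ ∑ v, ϱ v * (P v).hh * (K v : ℝ) := by
        rw [Finset.mul_sum]
        refine Finset.sum_le_sum fun v _ => ?_
        rw [← mul_assoc]
        exact mul_le_mul_of_nonneg_right (mul_le_mul_of_nonneg_right (hrϱ v) (hell0 v).le)
          (Nat.cast_nonneg _)
      have g2 : (m + η) * Y ≤ (m + 1) * Y := mul_le_mul_of_nonneg_right (by linarith) hY0.le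
      have g3 : (m + 1) / r0 * Y = (m + 1) * Y / r0 := by ring
      rw [g3, le_div_iff₀ hr0]
      linarith
    have h1 : ∏ v, (((P v).C.pd.e : ℝ) *
        ((2 * |((P v).x : ℝ)| ^ κ) ^ n * (2 * (P v).C.pd.q * ρ v) ^ ((P v).C.pd.e * (K v + 1)))) ≤
        ∏ v, Real.exp (Real.log n.factorial + n * ((κ + 1) * (P v).hh) +
          3 / c * (n.factorial * ((P v).hh * K v + (P v).hh))) := by
      apply Finset.prod_le_prod
      · intro v _
        have h2 := (hRc v).ρ2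
        have h3 : 0 ≤ ρ v := by linarith
        positivity
      · intro v _
        exact auxB_one_q (P v) (ρ v) hc1 (hRc v) (K v)
    refine h1.trans ?_
    rw [← Real.exp_sum]
    apply Real.exp_le_exp.2
    rw [← hf, Finset.sum_add_distrib, Finset.sum_add_distrib, ← Finset.mul_sum, ← Finset.mul_sum,
      ← Finset.mul_sum, ← Finset.mul_sum, Finset.sum_add_distrib, ← hS,
      Finset.sum_const, Finset.card_univ, Fintype.card_fin, nsmul_eq_mul]
    have h2 : S ≤ m * Y := by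
      rw [hS]
      refine (Finset.sum_le_sum fun v _ => hYell v).trans ?_
      rw [Finset.sum_const, Finset.card_univ, Fintype.card_fin, nsmul_eq_mul]
    have h4 : f * (∑ v, (P v).hh * (K v : ℝ) + S) ≤ f * ((m + 1) / r0 * Y + m * Y) :=
      mul_le_mul_of_nonneg_left (add_le_add hKs h2) (by linarith)
    have h5 := mul_le_mul_of_nonneg_left h4 (show (0 : ℝ) ≤ 3 / c by positivity)
    have h6 : (m : ℝ) * Real.log f * 1 ≤ m * Real.log f * (2 * Y / c) := mul_le_mul_of_nonneg_left hYc (by positivity)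
    have h7 : C1 * (Y / c) = m * Real.log f * (2 * Y / c) + 3 / c * (f * ((m + 1) / r0 * Y + m * Y)) := by
      rw [hC1]
      ring
    rw [h7]
    linarith
  obtain ⟨A, hA0, hA1, hA2⟩ := auxA_g P ρ hRc PP hst (Dq P Y) (Nq P Y) hN (fun v => ϱ v * (P v).hh)
    (fun v => mul_pos (hϱ v) (hell0 v)) ((m + η) * Y) hTT r hr hcount (Real.exp (n * ((κ + 1) * S) + C1 * (Y / c))) hB
  refine ⟨A, hA0, ?_, hA2⟩
  intro μ
  refine (hA1 μ).trans ?_
  -- the number of unknowns
  have hNd : ((∏ v, (Nq P Y v * (P v).d) : ℕ) : ℝ) ≤ Real.exp ((2 * m * Real.log n + 2 * m) * (Y / c)) := by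
    push_cast
    have h1 : ∏ v, ((Nq P Y v : ℝ) * (P v).d) ≤ ∏ _v : Fin m, Real.exp ((2 * Real.log n + 2) * (Y / c)) := by
      apply Finset.prod_le_prod
      · intro v _
        positivity
      · intro v _
        have h2 : (Nq P Y v : ℝ) ≤ Real.exp (2 * (Y / c)) := by
          have h3 : Nq P Y v ≤ Dq P Y v := by
            unfold Nq
            have := (P v).C.d1
            omega
          have h4 : (Dq P Y v : ℝ) ≤ Y / (P v).hh := by
            unfold Dq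
            exact Nat.floor_le (div_nonneg hY0.le (hell0 v).le)
          have h5 : Y / (P v).hh ≤ 2 * (Y / c) := by
            rw [show 2 * (Y / c) = Y / (c / 2) by field_simp]
            exact div_le_div_of_nonneg_left hY0.le (by positivity) (hell v)
          have h6 : (Nq P Y v : ℝ) ≤ Dq P Y v := by exact_mod_cast h3
          have h7 := Real.add_one_le_exp (2 * (Y / c))
          linarith
        have h8 : ((P v).d : ℝ) ≤ Real.exp (2 * Real.log n * (Y / c)) := by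
          have h9 : ((P v).d : ℝ) ≤ n := by exact_mod_cast (P v).C.dn
          have h10 : (n : ℝ) = Real.exp (Real.log n) := (Real.exp_log (by linarith)).symm
          rw [h10] at h9
          refine h9.trans (Real.exp_le_exp.2 ?_)
          have h11 : Real.log n * 1 ≤ Real.log n * (2 * Y / c) := mul_le_mul_of_nonneg_left hYc hln
          calc Real.log n = Real.log n * 1 := (mul_one _).symm
            _ ≤ Real.log n * (2 * Y / c) := h11
            _ = 2 * Real.log n * (Y / c) := by ring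
        refine (mul_le_mul h2 h8 (Nat.cast_nonneg _) (Real.exp_pos _).le).trans (le_of_eq ?_)
        rw [← Real.exp_add]
        congr 1
        ring
    refine h1.trans (le_of_eq ?_)
    rw [Finset.prod_const, Finset.card_univ, Fintype.card_fin, ← Real.exp_nat_mul]
    congr 1
    ring
  have h4 : (6 : ℝ) ≤ Real.exp (6 * (Y / c)) := by
    have h5 : (6 : ℝ) ≤ Real.exp 3 := by
      have h6 : Real.exp 3 = Real.exp 1 * Real.exp 1 * Real.exp 1 := by
        rw [← Real.exp_add, ← Real.exp_add]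
        norm_num
      have h7 : (2 : ℝ) ≤ Real.exp 1 := by
        have := Real.add_one_le_exp (1 : ℝ)
        linarith
      rw [h6]
      have h8 : (4 : ℝ) ≤ Real.exp 1 * Real.exp 1 := by nlinarith
      nlinarith
    refine h5.trans (Real.exp_le_exp.2 ?_)
    have h6 : 2 * Y / c = 2 * (Y / c) := by ring
    rw [h6] at hYc
    linarith
  have h5 : 6 * (((∏ v, (Nq P Y v * (P v).d) : ℕ) : ℝ) * Real.exp (n * ((κ + 1) * S) + C1 * (Y / c))) ≤
      Real.exp (n * ((κ + 1) * S) + C2 * (Y / c)) := by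
    have h6 : ((∏ v, (Nq P Y v * (P v).d) : ℕ) : ℝ) * Real.exp (n * ((κ + 1) * S) + C1 * (Y / c)) ≤
        Real.exp ((2 * m * Real.log n + 2 * m) * (Y / c)) * Real.exp (n * ((κ + 1) * S) + C1 * (Y / c)) :=
      mul_le_mul_of_nonneg_right hNd (Real.exp_pos _).le
    refine (mul_le_mul h4 h6 (by positivity) (Real.exp_pos _).le).trans (le_of_eq ?_)
    rw [← Real.exp_add, ← Real.exp_add, hC2]
    congr 1
    ring
  refine (pow_le_pow_left₀ (by positivity) h5 r).trans ?_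
  rw [← Real.exp_nat_mul]
  apply Real.exp_le_exp.2
  have h6 : (r : ℝ) * (n * ((κ + 1) * S) + C2 * (Y / c)) = r * (n * ((κ + 1) * S)) + r * C2 * (Y / c) := by ring
  have h7 : δ * Y = δ / 2 * Y + δ / 2 * c * (Y / c) := by
    field_simp
    ring
  rw [h6, h7]
  exact add_le_add hSδ (mul_le_mul_of_nonneg_right hcδ hYc0)

end Pool.Agent.H4.JP
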