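import Pool.Agent.H4.JP.Defs

/-! # [H4 JP SCJ] The stable set and its structure

Copy of `exists_PPR` (`Pool/Agent/H26/TR/SCR.lean`), exporting the structure `Str` in place of the size. -/

set_option autoImplicit false

namespace Pool.Agent.H4.JP

open Finset Polynomial Pool.Agent.H72.ES Pool.Agent.H87.SA Pool.Agent.H87.SA2 Pool.Agent.H87.AX
  Pool.Agent.H8.AW Pool.Agent.H52.AC Pool.Agent.H97.NW Pool.Agent.H34.AC Pool.Agent.H97.FB
  Pool.Agent.H97.FC Pool.Agent.H97.GA Pool.Agent.H37.TU Pool.Agent.H97.TU Pool.Agent.H97.TV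
  Pool.Agent.H97.TR Pool.Agent.H26.TR

variable {M n nu : ℕ}

private theorem scr_memq {q : ℚ[X]} (hq : q ≠ 0) {z : ℂ} (hz : aeval z q = 0) : z ∈ AA := by
  rw [mem_algebraicClosure_iff]
  exact ⟨q, hq, hz⟩

/-- the set of tuples of branches -/
theorem exists_PPJ (P : Fin (2 * M) → Ptr nu) (gs : Fin M → ℤ[X]) (θ : Fin M → Fin n → ℂ)
    (fs : Fin M → ℤ[X][X]) (pd : ∀ a, PData (fs a) n) (q : ℚ[X]) (β : ℂ) (l : Fin M → Fin n)
    (s : ℕ) (hq : Irreducible q) (hβ : aeval β q = 0) (hm : ∀ a, (gs a).Monic)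
    (hθ : ∀ a, Rts (gs a) (θ a))
    (hC : ∀ a, Nonempty (LbR (P (cv a)) (v1 (θ a)) (l a)))
    (hO : ∀ a, Nonempty (OrbD (pd a) s β (l a))) (hA : ∀ a, TauR (θ a) (pd a) (P (an a))) :
    ∃ PP : Finset (∀ v, Fin (P v).d), StbR P PP ∧ (fun v => (P v).i) ∈ PP ∧
      Str q.natDegree n s P PP := by
  classical
  have L : ∀ a, LbR (P (cv a)) (v1 (θ a)) (l a) := fun a => (hC a).some
  have O : ∀ a, OrbD (pd a) s β (l a) := fun a => (hO a).some
  choose tau htau1 htgal htrot hteq using hA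
  have hq' : q.map (algebraMap ℚ ℂ) ≠ 0 :=
    (Polynomial.map_ne_zero_iff (algebraMap ℚ ℂ).injective).2 hq.ne_zero
  obtain ⟨Z, hZ⟩ : ∃ Z : Finset ℂ, Z = (q.map (algebraMap ℚ ℂ)).roots.toFinset := ⟨_, rfl⟩
  have hmemZ : ∀ z, z ∈ Z ↔ aeval z q = 0 := by
    intro z
    rw [hZ, Multiset.mem_toFinset, mem_roots hq', IsRoot, eval_map]
    rfl
  have hZc : Z.card ≤ q.natDegree := by
    rw [hZ]
    exact (Multiset.toFinset_card_le _).trans ((card_roots' _).trans natDegree_map_le)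
  let PP : Finset (∀ v, Fin (P v).d) := univ.filter fun x => ∃ b ∈ Z, ∀ a, x (cv a) ∈ (L a).S ∧
    ∃ u ∈ (O a).S, (O a).ρ u = b ∧ tau a (x (an a)) u = (L a).th (x (cv a))
  have hmem : ∀ x, x ∈ PP ↔ ∃ b ∈ Z, ∀ a, x (cv a) ∈ (L a).S ∧
      ∃ u ∈ (O a).S, (O a).ρ u = b ∧ tau a (x (an a)) u = (L a).th (x (cv a)) := by
    intro x
    simp [PP]
  refine ⟨PP, ⟨?_, ?_⟩, ?_, ?_⟩
  · intro σ x hx x' hxx
    obtain ⟨b, hb, h⟩ := (hmem x).1 hx
    have hb0 := (hmemZ b).1 hb
    obtain ⟨b1, hb1⟩ : ∃ b1 : AA, (b1 : ℂ) = b := ⟨⟨b, scr_memq hq.ne_zero hb0⟩, rfl⟩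
    have hcb : Cj σ b (σ b1) := fun c hc => by
      have : c = b1 := Subtype.ext (hc.trans hb1.symm)
      rw [this]
    rw [hmem]
    refine ⟨σ b1, ?_, fun a => ?_⟩
    · rw [hmemZ]
      have h2 := cj_aeval (scr_memq hq.ne_zero hb0) hcb q
      rw [hb0] at h2
      have h3 := h2 0 rfl
      rw [map_zero] at h3
      exact h3.symm
    · obtain ⟨h1, u, hu, hub, hut⟩ := h a
      obtain ⟨ν, hν⟩ := exists_prm (hm a) (hθ a) σ
      obtain ⟨π, hπ, htπ⟩ := htgal a σ ν hν (x (an a)) (x' (an a))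
        (fun k c hc => hxx (an a) k c hc)
      obtain ⟨h2, h3⟩ := lab_prmR (hm a) (hθ a) (L a) hν h1 (j := x' (cv a))
        (fun k c hc => hxx (cv a) k c hc)
      obtain ⟨h5, h6⟩ := (O a).gal σ π hπ u hu
      refine ⟨h2, π u, h5, ?_, ?_⟩
      · rw [hub] at h6
        exact (h6 b1 hb1).symm
      · rw [h3, htπ, ← hut]
        simp
  · intro ζ hζ x hx x' hxx
    obtain ⟨b, hb, h⟩ := (hmem x).1 hx
    have hb0 := (hmemZ b).1 hb
    obtain ⟨b1, hb1⟩ : ∃ b1 : AA, (b1 : ℂ) = b := ⟨⟨b, scr_memq hq.ne_zero hb0⟩, rfl⟩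
    rw [hmem]
    refine ⟨b, hb, fun a => ?_⟩
    obtain ⟨h1, u, hu, hub, hut⟩ := h a
    obtain ⟨h2, h3⟩ := (L a).rot (ζ (cv a)) (hζ _) (x (cv a)) h1 (x' (cv a)) (hxx (cv a))
    obtain ⟨π, hπ, htπ⟩ := htrot a (ζ (an a)) (hζ _) (x (an a)) (x' (an a)) (hxx (an a))
    obtain ⟨h5, h6⟩ := (O a).gal idA π hπ u hu
    refine ⟨h2, π u, h5, ?_, ?_⟩
    · rw [hub] at h6
      have h7 := h6 b1 hb1
      rw [← h7, ← hb1]
      rfl
    · rw [h3, htπ, ← hut]
      simp
  · rw [hmem]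
    refine ⟨β, (hmemZ β).2 hβ, fun a => ⟨(L a).mem, l a, (O a).mem, (O a).val, ?_⟩⟩
    rw [htau1, (L a).near]
    rfl
  · -- the structure
    let U : ℂ → ∀ a : Fin M, Finset (Fin n) := fun b a => (O a).S.filter fun u => (O a).ρ u = b
    let R : ℂ → ∀ a : Fin M, Finset (Fin (P (cv a)).d × Fin (P (an a)).d) := fun b a =>
      univ.filter fun x => x.1 ∈ (L a).S ∧ ∃ u ∈ U b a, tau a x.2 u = (L a).th x.1
    refine ⟨Z, R, hZc, ?_, ?_⟩
    · intro x hx
      obtain ⟨b, hb, h⟩ := (hmem x).1 hx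
      refine ⟨b, hb, fun a => mem_filter.2 ⟨mem_univ _, ?_⟩⟩
      obtain ⟨h1, u, hu, hub, hut⟩ := h a
      exact ⟨h1, u, mem_filter.2 ⟨hu, hub⟩, hut⟩
    · intro b hb a
      have hR : n * (R b a).card ≤ (U b a).card * ((P (cv a)).d * (P (an a)).d) := by
        have h1 : (R b a).card ≤ ∑ i : Fin (P (cv a)).d, ∑ u ∈ U b a,
            (univ.filter fun j => tau a j u = (L a).th i).card := by
          have h2 : (R b a).card = ∑ i : Fin (P (cv a)).d,
              ((R b a).filter fun x => x.1 = i).card :=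
            card_eq_sum_card_fiberwise fun x _ => mem_univ _
          rw [h2]
          refine sum_le_sum fun i _ => ?_
          have h3 : ((R b a).filter fun x => x.1 = i).card ≤ ((U b a).biUnion fun u =>
              univ.filter fun j => tau a j u = (L a).th i).card := by
            refine card_le_card_of_injOn (fun x => x.2) ?_ ?_
            · rintro ⟨i', j⟩ hx
              have hx' := mem_filter.1 (mem_coe.1 hx)
              have hx1 := (mem_filter.1 hx'.1).2
              have hx2 : i' = i := hx'.2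
              subst hx2
              obtain ⟨-, u, hu, hut⟩ := hx1
              rw [mem_coe, mem_biUnion]
              exact ⟨u, hu, mem_filter.2 ⟨mem_univ _, hut⟩⟩
            · rintro ⟨i', j⟩ hx ⟨i'', j'⟩ hx' he
              have hx1 : i' = i := (mem_filter.1 (mem_coe.1 hx)).2
              have hx2 : i'' = i := (mem_filter.1 (mem_coe.1 hx')).2
              rw [Prod.mk.injEq]
              exact ⟨hx1.trans hx2.symm, he⟩
          exact h3.trans card_biUnion_le
        calc n * (R b a).card ≤ n * ∑ i : Fin (P (cv a)).d, ∑ u ∈ U b a,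
              (univ.filter fun j => tau a j u = (L a).th i).card := Nat.mul_le_mul_left _ h1
          _ = ∑ i : Fin (P (cv a)).d, ∑ u ∈ U b a,
              n * (univ.filter fun j => tau a j u = (L a).th i).card := by
            rw [mul_sum]
            exact sum_congr rfl fun i _ => mul_sum _ _ _
          _ ≤ ∑ _i : Fin (P (cv a)).d, ∑ _u ∈ U b a, (P (an a)).d :=
            sum_le_sum fun i _ => sum_le_sum fun u _ => hteq a u _
          _ = (U b a).card * ((P (cv a)).d * (P (an a)).d) := by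
            simp only [sum_const, card_univ, Fintype.card_fin, smul_eq_mul]
            ring
      have hU : q.natDegree * (U b a).card ≤ s := orbD_fib (O a) hq ((hmemZ b).1 hb)
      calc q.natDegree * n * (R b a).card = q.natDegree * (n * (R b a).card) := mul_assoc _ _ _
        _ ≤ q.natDegree * ((U b a).card * ((P (cv a)).d * (P (an a)).d)) :=
            Nat.mul_le_mul_left _ hR
        _ = q.natDegree * (U b a).card * ((P (cv a)).d * (P (an a)).d) := (mul_assoc _ _ _).symm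
        _ ≤ s * ((P (cv a)).d * (P (an a)).d) := Nat.mul_le_mul_right _ hU

end Pool.Agent.H4.JP
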