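import Pool.Agent.H4.JP.SIR

/-! # [H4 JP SIC] Siegel's lemma with the rank of the conditions (complex linear forms, stable under conjugation)

Apply `pigeon_rk` to the family `c : (κ × ι) × Fin 2 → (μ → ℝ)`, `c ((K,p),0) = Re (V K p)`, `c ((K,p),1) = Im (V K p)`: `∑ |c| ≤ M`; `|Re|, |Im| < 1/2` give
`‖∑ μ, A μ * V K p μ‖ ≤ |Re| + |Im| < 1`. RANK: let `S = span ℂ {V K p}`. The map `(μ → ℝ) → (μ → ℂ)`, `v ↦ (v : ℂ)` sends every `c x` into `S`: `Re V = (V + conj V)/2`,
`Im V = (V - conj V)/(2i)`, and `conj (V K p) = V K (cj p)`. A family of real vectors which is linearly independent over `ℝ` is independent over `ℂ` (take real and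
imaginary parts of a relation; or `LinearIndependent.map'`/`Module.finrank_baseChange`). Take a basis of `span ℝ (range c)` (its elements are real vectors whose images lie in `S`):
`finrank ℝ (span ℝ (range c)) ≤ finrank ℂ S` (`LinearIndependent.fintype_card_le_finrank`). -/

namespace Pool.Agent.H4.JP

open Finset

private lemma indC {n : ℕ} {μ : Type} (v : Fin n → μ → ℝ) (hv : LinearIndependent ℝ v) :
    LinearIndependent ℂ (fun k => (fun m => (v k m : ℂ) : μ → ℂ)) := by
  rw [Fintype.linearIndependent_iff] at hv ⊢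
  intro g hg
  have h1 : ∀ m, ∑ k, g k * (v k m : ℂ) = 0 := by
    intro m
    have := congrFun hg m
    simpa [Finset.sum_apply] using this
  have hre : ∑ k, (g k).re • v k = 0 := by
    funext m
    have := congrArg Complex.re (h1 m)
    simpa [Finset.sum_apply, Complex.re_sum] using this
  have him : ∑ k, (g k).im • v k = 0 := by
    funext m
    have := congrArg Complex.im (h1 m)
    simpa [Finset.sum_apply, Complex.im_sum] using this
  intro k
  exact Complex.ext (hv _ hre k) (hv _ him k)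

private lemma rankC {μ : Type} [Fintype μ] (c : Set (μ → ℝ)) (S : Submodule ℂ (μ → ℂ))
    (h : ∀ f ∈ c, (fun m => (f m : ℂ)) ∈ S) :
    Module.finrank ℝ (Submodule.span ℝ c) ≤ Module.finrank ℂ S := by
  classical
  let φ : (μ → ℝ) →ₗ[ℝ] (μ → ℂ) :=
    { toFun := fun f m => (f m : ℂ)
      map_add' := fun f g => by funext m; simp
      map_smul' := fun a f => by funext m; simp }
  have hφ : Submodule.span ℝ c ≤ (S.restrictScalars ℝ).comap φ := by
    rw [Submodule.span_le]
    intro f hf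
    exact h f hf
  let b := Module.finBasis ℝ (Submodule.span ℝ c)
  have hb : LinearIndependent ℝ (fun k => ((b k : Submodule.span ℝ c) : μ → ℝ)) :=
    b.linearIndependent.map' (Submodule.span ℝ c).subtype (Submodule.ker_subtype _)
  have hC := indC (fun k => ((b k : Submodule.span ℝ c) : μ → ℝ)) hb
  let w : Fin (Module.finrank ℝ (Submodule.span ℝ c)) → S := fun k =>
    ⟨fun m => (((b k : Submodule.span ℝ c) : μ → ℝ) m : ℂ), hφ (b k).2⟩
  have hw : LinearIndependent ℂ w := LinearIndependent.of_comp S.subtype hC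
  have := hw.fintype_card_le_finrank
  rwa [Fintype.card_fin] at this

theorem siegel_rk {ι κ μ : Type} [Fintype ι] [Fintype κ] [Fintype μ] (V : κ → ι → μ → ℂ)
    (cj : ι → ι) (hconj : ∀ K p m, V K (cj p) m = (starRingEnd ℂ) (V K p m)) {M : ℝ} (hM : 1 ≤ M)
    (hV : ∀ K p, ∑ m, ‖V K p m‖ ≤ M) {r R : ℕ} (hr : 1 ≤ r)
    (hR : Module.finrank ℂ (Submodule.span ℂ {f | ∃ K p, f = V K p}) ≤ R)
    (hcount : (r + 1) * R ≤ r * Fintype.card μ) (h0 : 0 < Fintype.card μ) :
    ∃ A : μ → ℤ, A ≠ 0 ∧ (∀ m, |(A m : ℝ)| ≤ (6 * M) ^ r) ∧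
      ∀ K p, ‖∑ m, (A m : ℂ) * V K p m‖ < 1 := by
  classical
  let c : (κ × ι) × Bool → μ → ℝ := fun x m =>
    bif x.2 then (V x.1.1 x.1.2 m).re else (V x.1.1 x.1.2 m).im
  have hc : ∀ x, ∑ m, |c x m| ≤ M := by
    rintro ⟨⟨K, p⟩, b⟩
    refine (Finset.sum_le_sum fun m _ => ?_).trans (hV K p)
    cases b
    · exact Complex.abs_im_le_norm _
    · exact Complex.abs_re_le_norm _
  have hrank : Module.finrank ℝ (Submodule.span ℝ (Set.range c)) ≤ R := by
    refine (rankC (Set.range c) (Submodule.span ℂ {f | ∃ K p, f = V K p}) ?_).trans hR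
    rintro f ⟨⟨⟨K, p⟩, b⟩, rfl⟩
    have m1 : V K p ∈ Submodule.span ℂ {f | ∃ K p, f = V K p} :=
      Submodule.subset_span ⟨K, p, rfl⟩
    have m2 : V K (cj p) ∈ Submodule.span ℂ {f | ∃ K p, f = V K p} :=
      Submodule.subset_span ⟨K, cj p, rfl⟩
    cases b
    · have e : (fun m => ((c ((K, p), false) m : ℝ) : ℂ)) =
          (-(Complex.I / 2)) • V K p + (Complex.I / 2) • V K (cj p) := by
        funext m
        show (((V K p m).im : ℝ) : ℂ) = _
        rw [Pi.add_apply, Pi.smul_apply, Pi.smul_apply, hconj, smul_eq_mul, smul_eq_mul]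
        apply Complex.ext <;> simp <;> ring
      rw [e]
      exact Submodule.add_mem _ (Submodule.smul_mem _ _ m1) (Submodule.smul_mem _ _ m2)
    · have e : (fun m => ((c ((K, p), true) m : ℝ) : ℂ)) =
          ((1 : ℂ) / 2) • V K p + ((1 : ℂ) / 2) • V K (cj p) := by
        funext m
        show (((V K p m).re : ℝ) : ℂ) = _
        rw [Pi.add_apply, Pi.smul_apply, Pi.smul_apply, hconj, smul_eq_mul, smul_eq_mul]
        apply Complex.ext <;> simp
        ring
      rw [e]
      exact Submodule.add_mem _ (Submodule.smul_mem _ _ m1) (Submodule.smul_mem _ _ m2)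
  obtain ⟨A, hA0, hA1, hA2⟩ := pigeon_rk c hM hc hr hrank hcount h0
  refine ⟨A, hA0, hA1, fun K p => ?_⟩
  have hre := hA2 ((K, p), true)
  have him := hA2 ((K, p), false)
  have e1 : (∑ m, (A m : ℂ) * V K p m).re = ∑ m, c ((K, p), true) m * (A m : ℝ) := by
    rw [Complex.re_sum]
    refine Finset.sum_congr rfl fun m _ => ?_
    show _ = (V K p m).re * (A m : ℝ)
    simp [mul_comm]
  have e2 : (∑ m, (A m : ℂ) * V K p m).im = ∑ m, c ((K, p), false) m * (A m : ℝ) := by
    rw [Complex.im_sum]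
    refine Finset.sum_congr rfl fun m _ => ?_
    show _ = (V K p m).im * (A m : ℝ)
    simp [mul_comm]
  have h3 := Complex.norm_le_abs_re_add_abs_im (∑ m, (A m : ℂ) * V K p m)
  rw [e1, e2] at h3
  linarith

end Pool.Agent.H4.JP
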