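import Pool.Agent.H98.MQ.QCE
import Pool.Agent.H98.MQ.QBA
import Pool.Agent.H97.NW.CNT
import Pool.Agent.H4.JP.Defs
import Pool.Agent.H4.JP.SIC

/-! # [H4 JP GAA] The auxiliary function from a bound for the rank of the conditions

Copy of `Pool/Agent/H98/MQ/QAA.lean` with `siegel_rk` in place of `siegel_gen`. -/

namespace Pool.Agent.H4.JP

open Finset Polynomial Pool.Agent.H72.ES Pool.Agent.H87.SA2 Pool.Agent.H8.AW Pool.Agent.H52.AC
  Pool.Agent.H97.NW Pool.Agent.H97.TR Pool.Agent.H98.MR Pool.Agent.H98.MQ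

variable {m n κ c : ℕ}

/-- the functional `Vq` is given by the vector `VV` -/
theorem Vq_eq (P : Fin m → Ptr n) (D N : Fin m → ℕ) (A : Mq P N → ℤ) (p : ∀ v, Fin (P v).d)
    (K : Fin m → ℕ) : Vq P D N A p K = ∑ μ, (A μ : ℂ) * VV P D N K p μ := by
  classical
  unfold Vq H98.MQ.Bq
  rw [Finset.sum_comm]
  refine Finset.sum_congr rfl fun μ _ => ?_
  rw [← Finset.mul_sum]
  congr 1
  unfold VV wf
  rw [Finset.prod_univ_sum, Fintype.piFinset_univ]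

theorem auxA_g (P : Fin m → Ptr n) (ρ : Fin m → ℝ) (hP : ∀ v, Rcr κ c (P v) (ρ v))
    (PP : Finset (∀ v, Fin (P v).d)) (hst : StbR P PP)
    (D N : Fin m → ℕ) (hN : ∀ v, 1 ≤ N v) (ℓ : Fin m → ℝ) (hℓ : ∀ v, 0 < ℓ v) (TT : ℝ)
    (hTT : 0 < TT) (r : ℕ) (hr : 1 ≤ r)
    (hcount : (r + 1) * Module.finrank ℂ (SPN P D N ℓ TT PP) ≤ r * ∏ v, (N v * (P v).d)) (B : ℝ)
    (hB : ∀ K ∈ cells ℓ TT, ∏ v, (((P v).C.pd.e : ℝ) *
      ((2 * |((P v).x : ℝ)| ^ κ) ^ n * (2 * (P v).C.pd.q * ρ v) ^ ((P v).C.pd.e * (K v + 1)))) ≤ B) :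
    ∃ A : Mq P N → ℤ, A ≠ 0 ∧ (∀ μ, |(A μ : ℝ)| ≤ (6 * ((∏ v, (N v * (P v).d) : ℕ) * B)) ^ r) ∧
      ∀ p ∈ PP, ∀ k : Fin m → ℕ, ∑ v, ℓ v * ((k v / (P v).C.pd.e : ℕ) : ℝ) < TT →
        H98.MQ.Bq P D N A p k = 0 := by
  classical
  choose c hc1 hc2 using fun v => exists_cq (P v)
  have hq1 : ∀ v, (1 : ℝ) ≤ (P v).C.pd.q := fun v => by exact_mod_cast (P v).C.pd.q_pos
  have hR1 : ∀ v, (2 : ℝ) ≤ ρ v := fun v => (hP v).ρ2
  have hU1 : ∀ v, (1 : ℝ) ≤ |((P v).x : ℝ)| ^ κ := fun v => one_le_pow₀ (hP v).x1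
  have he1 : ∀ v, (1 : ℝ) ≤ (P v).C.pd.e := fun v => by exact_mod_cast (P v).C.pd.e_pos
  have hX1 : ∀ v, (1 : ℝ) ≤ 2 * (P v).C.pd.q * ρ v := fun v => by
    have h1 := hq1 v
    have h2 := hR1 v
    nlinarith
  -- conjugation
  have hcm : ∀ p ∈ PP, (fun v => c v (p v)) ∈ PP := by
    intro p hp
    refine hst.1 ((starRingEnd ℂ).comp (algebraMap AA ℂ)) p hp _ ?_
    intro v k a ha
    rw [hc2 v (p v) k, ← ha]
    rfl
  let cj : {p // p ∈ PP} → {p // p ∈ PP} := fun p => ⟨fun v => c v (p.1 v), hcm p.1 p.2⟩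
  let V : {K // K ∈ cells ℓ TT} → {p // p ∈ PP} → Mq P N → ℂ := fun K p μ => VV P D N K.1 p.1 μ
  have hconj : ∀ K p μ, V K (cj p) μ = (starRingEnd ℂ) (V K p μ) := by
    intro K p μ
    simp only [V, VV, wf]
    rw [map_prod]
    refine Finset.prod_congr rfl fun v _ => ?_
    rw [map_sum]
    refine Finset.sum_congr rfl fun r _ => ?_
    exact coeff_uu_conj _ _ (hc2 v (p.1 v)) _ _ _ _
  have hVn : ∀ K p μ, ‖V K p μ‖ ≤ B := by
    intro K p μ
    refine le_trans ?_ (hB K.1 K.2)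
    simp only [V, VV, wf]
    rw [norm_prod]
    refine Finset.prod_le_prod (fun v _ => norm_nonneg _) fun v _ => ?_
    refine (norm_sum_le _ _).trans ?_
    have h1 : ∀ r ∈ (Finset.univ : Finset (Fin (P v).C.pd.e)),
        ‖PowerSeries.coeff ((P v).C.pd.e * K.1 v + (r : ℕ))
        (uu (P v).C.pd.q (P v).C.pd.e ((P v).C.pd.x (p.1 v)) (D v) (μ v).1 (μ v).2)‖ ≤
        ((2 * |((P v).x : ℝ)| ^ κ) ^ n *
          (2 * ((P v).C.pd.q : ℝ) * ρ v) ^ ((P v).C.pd.e * (K.1 v + 1))) := by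
      intro r _
      refine (uu_r (P v).C.pd.q_pos (hU1 v) (by linarith [hR1 v]) ((hP v).gr (p.1 v)) _ _ _ _).trans ?_
      have h2 : ((μ v).2 : ℕ) < (P v).d := (μ v).2.2
      have h3 := (P v).C.dn
      have h4 : (r : ℕ) < (P v).C.pd.e := r.2
      have h5 : (P v).C.pd.e * (K.1 v + 1) = (P v).C.pd.e * K.1 v + (P v).C.pd.e := by ring
      have h6 : (1 : ℝ) ≤ 2 * |((P v).x : ℝ)| ^ κ := by linarith [hU1 v]
      have h7 := hX1 v
      exact mul_le_mul (pow_le_pow_right₀ h6 (by omega)) (pow_le_pow_right₀ h7 (by omega))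
        (by positivity) (by positivity)
    refine (Finset.sum_le_sum h1).trans (le_of_eq ?_)
    rw [Finset.sum_const, Finset.card_univ, Fintype.card_fin, nsmul_eq_mul]
  have hcard : Fintype.card (Mq P N) = ∏ v, (N v * (P v).d) := by
    rw [Fintype.card_pi]
    refine Finset.prod_congr rfl fun v _ => ?_
    rw [Fintype.card_prod, Fintype.card_fin, Fintype.card_fin]
  have hcard0 : 0 < Fintype.card (Mq P N) := by
    rw [hcard]
    refine Finset.prod_pos fun v _ => ?_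
    exact Nat.mul_pos (hN v) (P v).C.d1
  have hB1 : 1 ≤ B := by
    have h0 : (fun _ => 0 : Fin m → ℕ) ∈ cells ℓ TT := by
      rw [mem_cells hℓ]
      simpa using hTT
    refine le_trans ?_ (hB _ h0)
    refine Finset.prod_induction _ (fun x : ℝ => 1 ≤ x)
      (fun a b ha hb => one_le_mul_of_one_le_of_one_le ha hb) le_rfl fun v _ => ?_
    have h6 : (1 : ℝ) ≤ 2 * |((P v).x : ℝ)| ^ κ := by linarith [hU1 v]
    exact one_le_mul_of_one_le_of_one_le (he1 v)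
      (one_le_mul_of_one_le_of_one_le (one_le_pow₀ h6) (one_le_pow₀ (hX1 v)))
  have hM1 : 1 ≤ ((∏ v, (N v * (P v).d) : ℕ) : ℝ) * B := by
    apply one_le_mul_of_one_le_of_one_le _ hB1
    rw [← hcard]
    exact_mod_cast hcard0
  have hS : {f | ∃ K p, f = V K p} = {f | ∃ K p, K ∈ cells ℓ TT ∧ p ∈ PP ∧ f = VV P D N K p} := by
    ext f
    constructor
    · rintro ⟨K, p, rfl⟩
      exact ⟨K.1, p.1, K.2, p.2, rfl⟩
    · rintro ⟨K, p, hK, hp, rfl⟩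
      exact ⟨⟨K, hK⟩, ⟨p, hp⟩, rfl⟩
  obtain ⟨A, hA0, hAb, hAs⟩ := siegel_rk V cj hconj hM1
    (by
      intro K p
      calc ∑ μ, ‖V K p μ‖ ≤ ∑ _μ : Mq P N, B := Finset.sum_le_sum fun μ _ => hVn K p μ
        _ = ((∏ v, (N v * (P v).d) : ℕ) : ℝ) * B := by
            rw [Finset.sum_const, Finset.card_univ, nsmul_eq_mul, hcard]) hr
    (R := Module.finrank ℂ (SPN P D N ℓ TT PP))
    (by
      rw [hS]
      exact le_rfl)
    (by
      rw [hcard]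
      exact hcount) hcard0
  refine ⟨A, hA0, hAb, ?_⟩
  intro p hp k hk
  have hmem : (fun v => k v / (P v).C.pd.e) ∈ cells ℓ TT := (mem_cells hℓ).2 hk
  have hsmall : ∀ p ∈ PP, ‖Vq P D N A p (fun v => k v / (P v).C.pd.e)‖ < 1 := by
    intro p hp
    have h1 := hAs ⟨_, hmem⟩ ⟨p, hp⟩
    rw [Vq_eq]
    exact h1
  have h3 := cell_zero_q P PP hst D N A _ hsmall p hp
    (fun v => ⟨k v % (P v).C.pd.e, Nat.mod_lt _ (P v).C.pd.e_pos⟩)
  have h4 : (fun v => (P v).C.pd.e * (k v / (P v).C.pd.e) + k v % (P v).C.pd.e) = k := by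
    funext v
    exact Nat.div_add_mod _ _
  simp only [h4] at h3
  exact h3

end Pool.Agent.H4.JP
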