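import Mathlib

/-! # [H4 JP JMP] Jump sets

`jump`: induction on the number of elements: order the finite type `ι` linearly by `(ω i, index i)` (`Fintype.equivFin`); `J` = the set of `i` such that `w i` is not in the span of the `w j`, `j` before `i`.
Then the `w j`, `j ∈ J`, are independent (`linearIndependent` along the order: in a relation look at the last index), and by strong induction along the order every `w i`
is in the span of the `w j` with `j ∈ J`, `j` before or equal `i`, so `ω j ≤ ω i`. Alternatively: strong induction over finsets `s` of `ι`: remove an element `i0` of `s` with the largest `ω`; let `J'` be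
the set for `s.erase i0`; `J = J'` if `w i0` is in the span of `w '' J'`, otherwise `J = insert i0 J'`. (For `i0` all elements of `J'` have `ω j ≤ ω i0`.) State the induction with `J ⊆ s`. -/

namespace Pool.Agent.H4.JP

open Finset

private lemma jumpAux {E ι : Type} [AddCommGroup E] [Module ℂ E] [DecidableEq ι] (w : ι → E)
    (ω : ι → ℝ) (s : Finset ι) : ∃ J : Finset ι, J ⊆ s ∧ LinearIndepOn ℂ w (J : Set ι) ∧
      ∀ i ∈ s, w i ∈ Submodule.span ℂ (w '' {j | j ∈ J ∧ ω j ≤ ω i}) := by
  refine Finset.induction_on_max_value ω s ?_ ?_
  · exact ⟨∅, subset_refl _, by simp, by simp⟩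
  · intro a s ha hmax ih
    obtain ⟨J, hJs, hli, hsp⟩ := ih
    by_cases h : w a ∈ Submodule.span ℂ (w '' (J : Set ι))
    · refine ⟨J, hJs.trans (Finset.subset_insert a s), hli, ?_⟩
      intro i hi
      rcases Finset.mem_insert.1 hi with rfl | hi
      · have : {j | j ∈ J ∧ ω j ≤ ω i} = (J : Set ι) := by
          ext j
          simp only [Set.mem_setOf_eq, Finset.mem_coe, and_iff_left_iff_imp]
          intro hj
          exact hmax j (hJs hj)
        rw [this]
        exact h
      · exact hsp i hi
    · refine ⟨insert a J, Finset.insert_subset_insert a hJs, ?_, ?_⟩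
      · rw [Finset.coe_insert]
        exact hli.insert h
      · intro i hi
        rcases Finset.mem_insert.1 hi with rfl | hi
        · exact Submodule.subset_span ⟨i, ⟨Finset.mem_insert_self i J, le_rfl⟩, rfl⟩
        · refine Submodule.span_mono ?_ (hsp i hi)
          refine Set.image_mono ?_
          intro j hj
          exact ⟨Finset.mem_insert_of_mem hj.1, hj.2⟩

theorem jump {E ι : Type} [AddCommGroup E] [Module ℂ E] [Fintype ι] [DecidableEq ι] (w : ι → E)
    (ω : ι → ℝ) : ∃ J : Finset ι, LinearIndependent ℂ (fun j : J => w j) ∧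
      ∀ i, w i ∈ Submodule.span ℂ (w '' {j | j ∈ J ∧ ω j ≤ ω i}) := by
  obtain ⟨J, -, h1, h2⟩ := jumpAux w ω Finset.univ
  exact ⟨J, h1, fun i => h2 i (Finset.mem_univ i)⟩

end Pool.Agent.H4.JP
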