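import Pool.Agent.H26.TR.NBR
import Pool.Agent.H4.JP.FRJ

/-! # [H4 JP NBJ] No bad rational fibres with a large parameter, condition `9 s < 2 ϱ r n`

Copy of `Pool/Agent/H26/TR/NBR.lean`. -/

set_option autoImplicit false

namespace Pool.Agent.H4.JP

open Finset Polynomial Pool.Agent.H72.ES Pool.Agent.H87.SA Pool.Agent.H87.SA2 Pool.Agent.H87.AX
  Pool.Agent.H8.AW Pool.Agent.H52.AC Pool.Agent.H97.NW Pool.Agent.H34.AC Pool.Agent.H97.FB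
  Pool.Agent.H97.FC Pool.Agent.H37.TU Pool.Agent.H97.TU Pool.Agent.H97.TV Pool.Agent.H97.TR
  Pool.Agent.H26.TR

/-- for every root `β` -/
theorem noBadJ1 (n m r s ν : ℕ) (hn : 2 ≤ n) (hm : 1 ≤ m) (hr : 1 ≤ r) (hs : 1 ≤ s) (hν : 4 ≤ ν)
    (ϱ : ℝ) (hϱ : 0 < ϱ) (hϱ1 : ϱ ≤ 1) (hnum : NumJ n r s ϱ) :
    ∃ (R1 : ℝ) (c : ℕ), 1 ≤ R1 ∧ ∀ (q : ℚ[X]) (β : ℂ), Irreducible q → q.natDegree = r →
      aeval β q = 0 → ∃ A0 : ℕ, ∀ D : BadR n m ν c s ϱ R1 β, D.a < A0 := by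
  obtain ⟨M, R1, c, hM, hR1, hfar⟩ := farJ n m r s ν hn hm hr hs hν ϱ hϱ hϱ1 hnum
  refine ⟨R1, c, hR1, fun q β hq hr hβ => ?_⟩
  by_contra hcon
  push Not at hcon
  have hlog0 : ∀ D : BadR n m ν c s ϱ R1 β, 0 ≤ Real.log D.a := fun D =>
    Real.log_nonneg (by exact_mod_cast badR_a1 D)
  have hαβ : ∀ D : BadR n m ν c s ϱ R1 β, Real.log D.a ≤ D.P.ell := fun D =>
    (le_mul_of_one_le_left (hlog0 D) hR1).trans D.big
  obtain ⟨sq, hsq⟩ := exists_lac (D := BadR n m ν c s ϱ R1 β) (fun D => Real.log D.a)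
    (fun D => D.P.ell) hαβ (fun D => (hlog0 D).trans (hαβ D)) (by
      intro x
      obtain ⟨D, hD⟩ := hcon (⌈Real.exp x⌉₊)
      refine ⟨D, ?_⟩
      rw [Real.le_log_iff_exp_le (by exact_mod_cast badR_a1 D)]
      exact (Nat.le_ceil _).trans (by exact_mod_cast hD)) R1 hR1
  exact hfar q β hq hr hβ (fun v : Fin M => sq v) fun v w hvw => hsq v w hvw

/-- for finitely many fields, all degrees -/
theorem noBadJ (n m ν : ℕ) (hn : 2 ≤ n) (hm : 1 ≤ m) (hν : 4 ≤ ν) (ϱ : ℝ)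
    (hϱ : 0 < ϱ) (hϱ1 : ϱ ≤ 1) :
    ∃ (R1 : ℝ) (c : ℕ), 1 ≤ R1 ∧
    (∀ s : ℕ, 2 * (s : ℝ) < ϱ * n → BadR n m ν c s ϱ R1 0 → False) ∧
    ∀ QQ : Finset ℚ[X], ∃ A0 : ℕ, (QQ = ∅ → A0 = 0) ∧ ∀ q ∈ QQ, Irreducible q →
      q.natDegree ≤ n → ∀ s ≤ n, NumJ n q.natDegree s ϱ → ∀ β : ℂ,
      aeval β q = 0 → ∀ D : BadR n m ν c s ϱ R1 β, D.a < A0 := by
  classical
  obtain ⟨RE, cE, hRE1, hE⟩ := noBadRE n m ν hn hm hν ϱ hϱ hϱ1
  have h1 : ∀ r s : ℕ, ∃ (R1 : ℝ) (c : ℕ), 1 ≤ R1 ∧ (NumJ n r s ϱ →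
      ∀ (q : ℚ[X]) (β : ℂ), Irreducible q → q.natDegree = r →
      aeval β q = 0 → ∃ A0 : ℕ, ∀ D : BadR n m ν c s ϱ R1 β, D.a < A0) := by
    intro r s
    rcases Nat.eq_zero_or_pos s with hs | hs
    · -- no orbit has at most `0` elements
      refine ⟨1, 0, le_refl _, fun _ q β _ _ _ => ⟨0, fun D => ?_⟩⟩
      obtain ⟨O⟩ := D.O
      have h3 := O.card
      have h4 := card_pos.2 ⟨_, O.mem⟩
      omega
    rcases Nat.eq_zero_or_pos r with hr | hr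
    · refine ⟨1, 0, le_refl _, fun _ q β hq hqr _ => ?_⟩
      have h3 := hq.natDegree_pos
      omega
    by_cases h : NumJ n r s ϱ
    · obtain ⟨R1, c, hR1, h2⟩ := noBadJ1 n m r s ν hn hm hr hs hν ϱ hϱ hϱ1 h
      exact ⟨R1, c, hR1, fun _ => h2⟩
    · exact ⟨1, 0, le_refl _, fun h' => absurd h' h⟩
  choose Rf cf hRf hf using h1
  obtain ⟨R1, hR1d⟩ : ∃ R1, R1 = RE + ∑ r ∈ range (n + 1), ∑ s ∈ range (n + 1), Rf r s :=
    ⟨_, rfl⟩
  obtain ⟨c, hcd⟩ : ∃ c, c = cE + ∑ r ∈ range (n + 1), ∑ s ∈ range (n + 1), cf r s := ⟨_, rfl⟩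
  have hR0 : ∀ r s, 0 ≤ Rf r s := fun r s => zero_le_one.trans (hRf r s)
  have hS0 : 0 ≤ ∑ r ∈ range (n + 1), ∑ s ∈ range (n + 1), Rf r s :=
    sum_nonneg fun r _ => sum_nonneg fun s _ => hR0 r s
  have hREle : RE ≤ R1 := by linarith
  have hcEle : cE ≤ c := by omega
  have hRle : ∀ r ≤ n, ∀ s ≤ n, Rf r s ≤ R1 := by
    intro r hr s hs
    have h2 := (single_le_sum (f := fun s => Rf r s) (fun s _ => hR0 r s)
      (mem_range.2 (by omega : s < n + 1))).trans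
      (single_le_sum (f := fun r => ∑ s ∈ range (n + 1), Rf r s)
        (fun r _ => sum_nonneg fun s _ => hR0 r s) (mem_range.2 (by omega : r < n + 1)))
    linarith
  have hcle : ∀ r ≤ n, ∀ s ≤ n, cf r s ≤ c := by
    intro r hr s hs
    have h2 := (single_le_sum (f := fun s => cf r s) (fun s _ => Nat.zero_le _)
      (mem_range.2 (by omega : s < n + 1))).trans
      (single_le_sum (f := fun r => ∑ s ∈ range (n + 1), cf r s)
        (fun r _ => Nat.zero_le _) (mem_range.2 (by omega : r < n + 1)))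
    omega
  refine ⟨R1, c, hRE1.trans hREle, fun s hs D => hE s hs (badMono hcEle hREle le_rfl D),
    fun QQ => ?_⟩
  have h2 : ∀ (q : ℚ[X]) (s : ℕ) (β : ℂ), ∃ A0 : ℕ, Irreducible q → q.natDegree ≤ n → s ≤ n →
      NumJ n q.natDegree s ϱ → aeval β q = 0 →
      ∀ D : BadR n m ν c s ϱ R1 β, D.a < A0 := by
    intro q s β
    by_cases h : Irreducible q ∧ q.natDegree ≤ n ∧ s ≤ n ∧
      NumJ n q.natDegree s ϱ ∧ aeval β q = 0
    · obtain ⟨hq, hqn, hs, hnum, hβ⟩ := h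
      obtain ⟨A0, hA0⟩ := hf q.natDegree s hnum q β hq rfl hβ
      exact ⟨A0, fun _ _ _ _ _ D => by
        have h3 := hA0 (badMono (hcle _ hqn _ hs) (hRle _ hqn _ hs) le_rfl D)
        rwa [badMono_a] at h3⟩
    · exact ⟨0, fun h1 h2 h3 h4 h5 => absurd ⟨h1, h2, h3, h4, h5⟩ h⟩
  choose A hA using h2
  refine ⟨∑ q ∈ QQ, ∑ s ∈ range (n + 1), ∑ β ∈ (q.aroots ℂ).toFinset, A q s β, ?_, ?_⟩
  · rintro rfl
    rw [sum_empty]
  intro q hq hqi hqn s hs hnum β hβ D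
  refine (hA q s β hqi hqn hs hnum hβ D).trans_le ?_
  have hβm : β ∈ (q.aroots ℂ).toFinset := by
    rw [Multiset.mem_toFinset, mem_aroots]
    exact ⟨hqi.ne_zero, hβ⟩
  exact (single_le_sum (f := fun β => A q s β) (fun _ _ => Nat.zero_le _) hβm).trans
    ((single_le_sum (f := fun s => ∑ β ∈ (q.aroots ℂ).toFinset, A q s β)
      (fun _ _ => Nat.zero_le _) (mem_range.2 (by omega))).trans
      (single_le_sum (f := fun q => ∑ s ∈ range (n + 1), ∑ β ∈ (q.aroots ℂ).toFinset, A q s β)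
        (fun _ _ => Nat.zero_le _) hq))

end Pool.Agent.H4.JP
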