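import Mathlib

/-! # [H4 JP SRT] Sorting by weight

Let `e : ι ≃ Fin k` or any injection `e : J → ℕ`; order `J` by `(ω j, e j)` lexicographically. `u j := #{j' ∈ J : (ω j', e j') ≤ (ω j, e j)}`: between `1` and `J.card ≤ D`, injective on `J`, and
`u j ≤ #{j' ∈ J : ω j' ≤ ω j} ≤ A (ω j + σ)^2`, so `√(u j / A) ≤ ω j + σ` (`Real.sqrt_le_left`/`Real.sqrt_le_sqrt`, `ω j + σ ≥ 0`). Or induction on `J` (remove an element of largest `ω`, give it the number `J.card`). -/

namespace Pool.Agent.H4.JP

open Finset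

theorem sorted {ι : Type} [DecidableEq ι] (J : Finset ι) (ω : ι → ℝ) (A σ : ℝ) (hA : 0 < A) (D : ℕ)
    (hD : J.card ≤ D) (hω : ∀ j ∈ J, 0 ≤ ω j + σ)
    (hJ : ∀ j ∈ J, ((J.filter fun j' => ω j' ≤ ω j).card : ℝ) ≤ A * (ω j + σ) ^ 2) :
    ∃ u : ι → ℕ, (∀ j ∈ J, 1 ≤ u j ∧ u j ≤ D) ∧ Set.InjOn u J ∧
      ∀ j ∈ J, Real.sqrt (u j / A) ≤ ω j + σ := by
  have key : ∀ J : Finset ι, ∃ u : ι → ℕ, (∀ j ∈ J, 1 ≤ u j ∧ u j ≤ J.card) ∧ Set.InjOn u J ∧
      ∀ j ∈ J, u j ≤ (J.filter fun j' => ω j' ≤ ω j).card := by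
    intro J
    refine Finset.induction_on_max_value (motive := fun J : Finset ι => ∃ u : ι → ℕ,
      (∀ j ∈ J, 1 ≤ u j ∧ u j ≤ J.card) ∧ Set.InjOn u J ∧
      ∀ j ∈ J, u j ≤ (J.filter fun j' => ω j' ≤ ω j).card) ω J ?_ ?_
    · exact ⟨fun _ => 0, by simp, by simp, by simp⟩
    · rintro a s has hmax ⟨u, h1, h2, h3⟩
      have hne : ∀ j ∈ s, j ≠ a := fun j hj h => has (h ▸ hj)
      have hup : ∀ j ∈ s, Function.update u a (s.card + 1) j = u j := fun j hj =>
        Function.update_of_ne (hne j hj) _ _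
      have hua : Function.update u a (s.card + 1) a = s.card + 1 := Function.update_self _ _ _
      have hcard : (insert a s).card = s.card + 1 := Finset.card_insert_of_notMem has
      refine ⟨Function.update u a (s.card + 1), ?_, ?_, ?_⟩
      · intro j hj
        rw [hcard]
        rcases Finset.mem_insert.mp hj with rfl | hj
        · rw [hua]
          exact ⟨by omega, le_rfl⟩
        · rw [hup j hj]
          exact ⟨(h1 j hj).1, by have := (h1 j hj).2; omega⟩
      · intro j hj k hk hjk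
        have hj' : j = a ∨ j ∈ s := by simpa using hj
        have hk' : k = a ∨ k ∈ s := by simpa using hk
        rcases hj' with rfl | hj' <;> rcases hk' with rfl | hk'
        · rfl
        · rw [hua, hup k hk'] at hjk
          have := (h1 k hk').2
          omega
        · rw [hua, hup j hj'] at hjk
          have := (h1 j hj').2
          omega
        · rw [hup j hj', hup k hk'] at hjk
          exact h2 hj' hk' hjk
      · intro j hj
        rcases Finset.mem_insert.mp hj with rfl | hj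
        · rw [hua, ← hcard]
          refine Finset.card_le_card ?_
          intro k hk
          rw [Finset.mem_filter]
          refine ⟨hk, ?_⟩
          rcases Finset.mem_insert.mp hk with rfl | hk
          · exact le_rfl
          · exact hmax k hk
        · rw [hup j hj]
          refine (h3 j hj).trans (Finset.card_le_card ?_)
          exact Finset.filter_subset_filter _ (Finset.subset_insert _ _)
  obtain ⟨u, h1, h2, h3⟩ := key J
  refine ⟨u, fun j hj => ⟨(h1 j hj).1, (h1 j hj).2.trans hD⟩, h2, ?_⟩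
  intro j hj
  rw [show ω j + σ = Real.sqrt ((ω j + σ) ^ 2) from (Real.sqrt_sq (hω j hj)).symm]
  refine Real.sqrt_le_sqrt ?_
  rw [div_le_iff₀ hA]
  have h4 : (u j : ℝ) ≤ ((J.filter fun j' => ω j' ≤ ω j).card : ℝ) := by exact_mod_cast h3 j hj
  have h5 := hJ j hj
  linarith

end Pool.Agent.H4.JP
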