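import Mathlib

/-! # [H4 JP TEN] The rank of products of functionals of small total weight

`T x := fun y => ∏ a, w a (x a) (y a)`. The map `(f a)_a ↦ (y ↦ ∏ a, f a (y a))` is multilinear (`MultilinearMap`, e.g. `MultilinearMap.mkPiAlgebra` composed, or prove by hand that replacing one factor is
linear). CLAIM: for `x : ∀ a, ι a` `T x` is in the span of the `T z` with `z a ∈ J a`, `ω a (z a) ≤ ω a (x a)` for all `a`. Proof: general lemma: if `f a ∈ span (S a)` for all `a`, then
`∏ f a` is in the span of `{∏ g a : g a ∈ S a}` (induction over the finite set of `a`'s which are already replaced: `Submodule.span_induction` in one coordinate; `Function.update`). So the span in question is contained in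
the span of the finite set `{T z : z ∈ piFinset J, ∑ ω < t}`; `finrank_span_finset_le_card`. -/

namespace Pool.Agent.H4.JP

open Finset

private lemma updProd {M : ℕ} (μ : Fin M → Type) (f : ∀ a, μ a → ℂ) (a0 : Fin M)
    (h : μ a0 → ℂ) (y : ∀ a, μ a) : ∏ a, Function.update f a0 h a (y a) =
      h (y a0) * ∏ a ∈ Finset.univ.erase a0, f a (y a) := by
  rw [← Finset.mul_prod_erase Finset.univ _ (Finset.mem_univ a0)]
  congr 1
  · rw [Function.update_self]
  · refine Finset.prod_congr rfl fun a ha => ?_
    rw [Function.update_of_ne (Finset.ne_of_mem_erase ha)]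

private lemma spanPi {M : ℕ} (μ : Fin M → Type) (S : ∀ a, Set (μ a → ℂ)) (s : Finset (Fin M)) :
    ∀ f : ∀ a, μ a → ℂ, (∀ a ∈ s, f a ∈ Submodule.span ℂ (S a)) → (∀ a, a ∉ s → f a ∈ S a) →
      (fun y : ∀ a, μ a => ∏ a, f a (y a)) ∈ Submodule.span ℂ {F : (∀ a, μ a) → ℂ |
        ∃ g : ∀ a, μ a → ℂ, (∀ a, g a ∈ S a) ∧ F = fun y => ∏ a, g a (y a)} := by
  induction s using Finset.induction_on with
  | empty =>
    intro f _ h2
    exact Submodule.subset_span ⟨f, fun a => h2 a (Finset.notMem_empty a), rfl⟩
  | insert a0 s ha0 ih =>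
    intro f h1 h2
    have key : ∀ h : μ a0 → ℂ, h ∈ Submodule.span ℂ (S a0) →
        (fun y : ∀ a, μ a => h (y a0) * ∏ a ∈ Finset.univ.erase a0, f a (y a)) ∈
          Submodule.span ℂ {F : (∀ a, μ a) → ℂ |
            ∃ g : ∀ a, μ a → ℂ, (∀ a, g a ∈ S a) ∧ F = fun y => ∏ a, g a (y a)} := by
      intro h hh
      induction hh using Submodule.span_induction with
      | mem h hS =>
        have := ih (Function.update f a0 h) ?_ ?_
        · have e : (fun y : ∀ a, μ a => ∏ a, Function.update f a0 h a (y a)) =
              fun y : ∀ a, μ a => h (y a0) * ∏ a ∈ Finset.univ.erase a0, f a (y a) := by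
            funext y
            exact updProd μ f a0 h y
          rw [e] at this
          exact this
        · intro a ha
          have hne : a ≠ a0 := fun e => ha0 (e ▸ ha)
          rw [Function.update_of_ne hne]
          exact h1 a (Finset.mem_insert_of_mem ha)
        · intro a ha
          by_cases hne : a = a0
          · subst hne
            rw [Function.update_self]
            exact hS
          · rw [Function.update_of_ne hne]
            refine h2 a ?_
            intro hmem
            rcases Finset.mem_insert.1 hmem with h3 | h3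
            · exact hne h3
            · exact ha h3
      | zero =>
        have e : (fun y : ∀ a, μ a => (0 : μ a0 → ℂ) (y a0) *
            ∏ a ∈ Finset.univ.erase a0, f a (y a)) = 0 := by
          funext y
          simp
        rw [e]
        exact Submodule.zero_mem _
      | add h k _ _ hh hk =>
        have e : (fun y : ∀ a, μ a => (h + k) (y a0) *
            ∏ a ∈ Finset.univ.erase a0, f a (y a)) =
            (fun y : ∀ a, μ a => h (y a0) * ∏ a ∈ Finset.univ.erase a0, f a (y a)) +
            (fun y : ∀ a, μ a => k (y a0) * ∏ a ∈ Finset.univ.erase a0, f a (y a)) := by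
          funext y
          simp [add_mul]
        rw [e]
        exact Submodule.add_mem _ hh hk
      | smul c h _ hh =>
        have e : (fun y : ∀ a, μ a => (c • h) (y a0) *
            ∏ a ∈ Finset.univ.erase a0, f a (y a)) =
            c • (fun y : ∀ a, μ a => h (y a0) * ∏ a ∈ Finset.univ.erase a0, f a (y a)) := by
          funext y
          simp [mul_assoc]
        rw [e]
        exact Submodule.smul_mem _ c hh
    have e : (fun y : ∀ a, μ a => ∏ a, f a (y a)) =
        fun y : ∀ a, μ a => f a0 (y a0) * ∏ a ∈ Finset.univ.erase a0, f a (y a) := by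
      funext y
      exact (Finset.mul_prod_erase Finset.univ (fun a => f a (y a)) (Finset.mem_univ a0)).symm
    rw [e]
    exact key (f a0) (h1 a0 (Finset.mem_insert_self a0 s))

theorem ten_rank {M : ℕ} (μ ι : Fin M → Type) [∀ a, Fintype (μ a)] [∀ a, DecidableEq (ι a)]
    (w : ∀ a, ι a → μ a → ℂ) (ω : ∀ a, ι a → ℝ) (J : ∀ a, Finset (ι a))
    (hJ : ∀ a i, w a i ∈ Submodule.span ℂ (w a '' {j | j ∈ J a ∧ ω a j ≤ ω a i})) (t : ℝ) :
    Module.finrank ℂ (Submodule.span ℂ {f : (∀ a, μ a) → ℂ | ∃ x : ∀ a, ι a,
      ∑ a, ω a (x a) < t ∧ f = fun y => ∏ a, w a (x a) (y a)}) ≤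
      ((Fintype.piFinset J).filter fun z => ∑ a, ω a (z a) < t).card := by
  classical
  set G : Finset (∀ a, ι a) := (Fintype.piFinset J).filter fun z => ∑ a, ω a (z a) < t with hG
  let T : (∀ a, ι a) → ((∀ a, μ a) → ℂ) := fun x y => ∏ a, w a (x a) (y a)
  have hle : Submodule.span ℂ {f : (∀ a, μ a) → ℂ | ∃ x : ∀ a, ι a,
      ∑ a, ω a (x a) < t ∧ f = fun y => ∏ a, w a (x a) (y a)} ≤
      Submodule.span ℂ ((G.image T : Finset ((∀ a, μ a) → ℂ)) : Set ((∀ a, μ a) → ℂ)) := by
    rw [Submodule.span_le]
    rintro f ⟨x, hx, rfl⟩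
    have h1 := spanPi μ (fun a => w a '' {j | j ∈ J a ∧ ω a j ≤ ω a (x a)}) Finset.univ
      (fun a => w a (x a)) (fun a _ => hJ a (x a)) (fun a ha => absurd (Finset.mem_univ a) ha)
    refine Submodule.span_mono ?_ h1
    rintro F ⟨g, hg, rfl⟩
    choose z hz hzg using hg
    rw [Finset.mem_coe, Finset.mem_image]
    refine ⟨z, ?_, ?_⟩
    · rw [hG, Finset.mem_filter, Fintype.mem_piFinset]
      refine ⟨fun a => (hz a).1, ?_⟩
      exact lt_of_le_of_lt (Finset.sum_le_sum fun a _ => (hz a).2) hx
    · funext y
      refine Finset.prod_congr rfl fun a _ => ?_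
      rw [hzg a]
  calc Module.finrank ℂ _ ≤ Module.finrank ℂ (Submodule.span ℂ
        ((G.image T : Finset ((∀ a, μ a) → ℂ)) : Set ((∀ a, μ a) → ℂ))) :=
        Submodule.finrank_mono hle
    _ ≤ (G.image T).card := finrank_span_finset_le_card _
    _ ≤ G.card := Finset.card_image_le

end Pool.Agent.H4.JP
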