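import Pool.Agent.H97.NW.CNT

/-! # [H4 JP TRI] Lattice points in a triangle

For `T > ξ` the set is contained in the image of `cells ![α, β] T` (`mem_cells`), so `card * (2 α β) ≤ (T + α + β)^2` (`cells_card` with `m = 2`, `Fin.prod_univ_two`, `Fin.sum_univ_two`). This holds for all
`T > ξ`; let `T → ξ` (`le_of_forall_gt_imp_ge_of_dense`-style: continuity, or by contradiction choose `T` slightly larger than `ξ`). -/

namespace Pool.Agent.H4.JP

open Finset Pool.Agent.H97.NW

theorem tri_card (α β : ℝ) (hα : 0 < α) (hβ : 0 < β) (ξ : ℝ) (hξ : 0 ≤ ξ) (s : Finset (ℕ × ℕ))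
    (hs : ∀ k ∈ s, α * k.1 + β * k.2 ≤ ξ) :
    (s.card : ℝ) * (2 * α * β) ≤ (ξ + α + β) ^ 2 := by
  classical
  have key : ∀ T : ℝ, ξ < T → (s.card : ℝ) * (2 * α * β) ≤ (T + α + β) ^ 2 := by
    intro T hT
    have hℓ : ∀ v : Fin 2, 0 < (![α, β] : Fin 2 → ℝ) v := by
      intro v
      fin_cases v
      · exact hα
      · exact hβ
    have h1 : s.card ≤ (cells ![α, β] T).card := by
      refine Finset.card_le_card_of_injOn (fun k : ℕ × ℕ => (![k.1, k.2] : Fin 2 → ℕ)) ?_ ?_
      · intro k hk
        have h2 : (![k.1, k.2] : Fin 2 → ℕ) ∈ cells ![α, β] T := by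
          rw [mem_cells hℓ, Fin.sum_univ_two]
          have h3 := hs k hk
          simp only [Matrix.cons_val_zero, Matrix.cons_val_one]
          linarith
        exact h2
      · intro k _ l _ hkl
        have h4 := congrFun hkl 0
        have h5 := congrFun hkl 1
        simp only [Matrix.cons_val_zero, Matrix.cons_val_one] at h4 h5
        exact Prod.ext h4 h5
    have h6 := cells_card 2 ![α, β] hℓ T (by linarith)
    rw [Fin.prod_univ_two, Fin.sum_univ_two] at h6
    simp only [Matrix.cons_val_zero, Matrix.cons_val_one] at h6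
    have h7 : ((2 : ℕ).factorial : ℝ) = 2 := by norm_num [Nat.factorial]
    rw [h7] at h6
    have h8 : (s.card : ℝ) ≤ ((cells ![α, β] T).card : ℝ) := by exact_mod_cast h1
    calc (s.card : ℝ) * (2 * α * β) ≤ ((cells ![α, β] T).card : ℝ) * (2 * α * β) :=
          mul_le_mul_of_nonneg_right h8 (by positivity)
      _ = ((cells ![α, β] T).card : ℝ) * (2 * (α * β)) := by ring
      _ ≤ (T + (α + β)) ^ 2 := h6
      _ = _ := by ring
  refine ge_of_tendsto (f := fun T : ℝ => (T + α + β) ^ 2) (x := nhdsWithin ξ (Set.Ioi ξ)) ?_ ?_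
  · refine Filter.Tendsto.mono_left ?_ nhdsWithin_le_nhds
    have : Continuous fun T : ℝ => (T + α + β) ^ 2 := by fun_prop
    exact this.tendsto ξ
  · filter_upwards [self_mem_nhdsWithin] with T hT
    exact key T hT

end Pool.Agent.H4.JP
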