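import Pool.Agent.H4.JP.JMP
import Pool.Agent.H4.JP.TEN
import Pool.Agent.H4.JP.SRT
import Pool.Agent.H4.JP.CHB
import Pool.Agent.H4.JP.TRI

/-! # [H4 JP RKA] The rank of the conditions at one root: products of pairs -/

namespace Pool.Agent.H4.JP

open Finset

/-- one pair: the jumps, sorted by weight -/
theorem pair_jump {μ κ : Type} [Fintype μ] [DecidableEq κ] (w : ℕ → ℕ → κ → μ → ℂ)
    (R : Finset κ) (hR : R.Nonempty) (B : ℕ) (α γ : ℝ) (hα : 0 < α) (hγ : 0 < γ) :
    ∃ (J : Finset (Fin B × Fin B × {x // x ∈ R})) (u : (Fin B × Fin B × {x // x ∈ R}) → ℕ),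
      (∀ i : Fin B × Fin B × {x // x ∈ R}, w i.1 i.2.1 i.2.2 ∈ Submodule.span ℂ
        ((fun j : Fin B × Fin B × {x // x ∈ R} => w j.1 j.2.1 j.2.2) ''
          {j | j ∈ J ∧ α * j.1 + γ * j.2.1 ≤ α * i.1 + γ * i.2.1})) ∧
      (∀ j ∈ J, 1 ≤ u j ∧ u j ≤ Fintype.card μ) ∧ Set.InjOn u J ∧
      ∀ j ∈ J, Real.sqrt (u j * (2 * α * γ) / R.card) ≤ α * j.1 + γ * j.2.1 + (α + γ) := by
  classical
  obtain ⟨J, hJ1, hJ2⟩ := jump (fun j : Fin B × Fin B × {x // x ∈ R} => w j.1 j.2.1 j.2.2)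
    (fun j => α * j.1 + γ * j.2.1)
  have hRc : (0 : ℝ) < R.card := by exact_mod_cast hR.card_pos
  have hA : 0 < (R.card : ℝ) / (2 * α * γ) := by positivity
  have hcard : J.card ≤ Fintype.card μ := by
    have h1 := hJ1.fintype_card_le_finrank
    rw [Fintype.card_coe, Module.finrank_fintype_fun_eq_card] at h1
    exact h1
  have hω : ∀ j ∈ J, 0 ≤ α * (j.1 : ℝ) + γ * (j.2.1 : ℝ) + (α + γ) := by
    intro j _
    positivity
  obtain ⟨u, hu1, hu2, hu3⟩ := sorted J (fun j => α * (j.1 : ℝ) + γ * (j.2.1 : ℝ))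
    ((R.card : ℝ) / (2 * α * γ)) (α + γ) hA (Fintype.card μ) hcard hω (by
      intro j hj
      -- the number of pairs of weight at most `ω j`
      have h1 : ((J.filter fun j' => α * (j'.1 : ℝ) + γ * (j'.2.1 : ℝ) ≤
          α * (j.1 : ℝ) + γ * (j.2.1 : ℝ)).card : ℝ) ≤
          (R.card : ℝ) * (((univ : Finset (Fin B × Fin B)).filter fun k =>
            α * (k.1 : ℝ) + γ * (k.2 : ℝ) ≤ α * (j.1 : ℝ) + γ * (j.2.1 : ℝ)).image
              fun k => ((k.1 : ℕ), (k.2 : ℕ))).card := by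
        have h2 : (J.filter fun j' => α * (j'.1 : ℝ) + γ * (j'.2.1 : ℝ) ≤
          α * (j.1 : ℝ) + γ * (j.2.1 : ℝ)).card ≤
          (R ×ˢ (((univ : Finset (Fin B × Fin B)).filter fun k =>
            α * (k.1 : ℝ) + γ * (k.2 : ℝ) ≤ α * (j.1 : ℝ) + γ * (j.2.1 : ℝ)).image
              fun k => ((k.1 : ℕ), (k.2 : ℕ)))).card := by
          refine card_le_card_of_injOn (fun i => ((i.2.2 : κ), ((i.1 : ℕ), (i.2.1 : ℕ)))) ?_ ?_
          · intro i hi
            have hi' := (mem_filter.1 (mem_coe.1 hi)).2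
            rw [mem_coe, mem_product]
            refine ⟨i.2.2.2, ?_⟩
            rw [mem_image]
            exact ⟨(i.1, i.2.1), mem_filter.2 ⟨mem_univ _, hi'⟩, rfl⟩
          · rintro ⟨a, b, c⟩ _ ⟨a', b', c'⟩ _ h
            simp only [Prod.mk.injEq] at h
            obtain ⟨h1, h2, h3⟩ := h
            have h4 : a = a' := Fin.ext h2
            have h5 : b = b' := Fin.ext h3
            have h6 : c = c' := Subtype.ext h1
            rw [h4, h5, h6]
        rw [card_product] at h2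
        exact_mod_cast h2
      have h3 := tri_card α γ hα hγ (α * (j.1 : ℝ) + γ * (j.2.1 : ℝ)) (by positivity)
        (((univ : Finset (Fin B × Fin B)).filter fun k =>
            α * (k.1 : ℝ) + γ * (k.2 : ℝ) ≤ α * (j.1 : ℝ) + γ * (j.2.1 : ℝ)).image
              fun k => ((k.1 : ℕ), (k.2 : ℕ))) (by
          intro k hk
          rw [mem_image] at hk
          obtain ⟨k', hk', rfl⟩ := hk
          exact (mem_filter.1 hk').2)
      refine h1.trans ?_
      have h4 : (0 : ℝ) < 2 * α * γ := by positivity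
      rw [div_mul_eq_mul_div, le_div_iff₀ h4, mul_assoc]
      refine mul_le_mul_of_nonneg_left ?_ hRc.le
      refine h3.trans (le_of_eq ?_)
      ring)
  refine ⟨J, u, hJ2, hu1, hu2, fun j hj => ?_⟩
  refine le_trans (le_of_eq ?_) (hu3 j hj)
  congr 1
  field_simp

theorem pairs_rank {M : ℕ} (μ κ : Fin M → Type) [∀ a, Fintype (μ a)] [∀ a, DecidableEq (κ a)]
    (w : ∀ a, ℕ → ℕ → κ a → μ a → ℂ) (R : ∀ a, Finset (κ a)) (α γ : Fin M → ℝ)
    (hα : ∀ a, 0 < α a) (hγ : ∀ a, 0 < γ a) (T β σ ε : ℝ) (hβ : 0 < β) (hε : 0 < ε)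
    (hμ : ∀ a, 1 ≤ Fintype.card (μ a))
    (hR : ∀ a, β ^ 2 * (R a).card ≤ 2 * α a * γ a * Fintype.card (μ a))
    (hσ : ∀ a, α a + γ a ≤ σ) (hT : T + M * σ ≤ β * ((2 / 3 - ε) * M)) :
    (Module.finrank ℂ (Submodule.span ℂ {f : (∀ a, μ a) → ℂ | ∃ (k k' : Fin M → ℕ)
      (x : ∀ a, κ a), (∀ a, x a ∈ R a) ∧ ∑ a, (α a * k a + γ a * k' a) < T ∧
        f = fun y => ∏ a, w a (k a) (k' a) (x a) (y a)}) : ℝ) * (M * ε ^ 2) ≤
      ∏ a, (Fintype.card (μ a) : ℝ) := by
  classical
  by_cases hne : ∀ a, (R a).Nonempty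
  swap
  · push Not at hne
    obtain ⟨a0, ha0⟩ := hne
    have h0 : {f : (∀ a, μ a) → ℂ | ∃ (k k' : Fin M → ℕ)
      (x : ∀ a, κ a), (∀ a, x a ∈ R a) ∧ ∑ a, (α a * k a + γ a * k' a) < T ∧
        f = fun y => ∏ a, w a (k a) (k' a) (x a) (y a)} = ∅ := by
      ext f
      simp only [Set.mem_setOf_eq, Set.mem_empty_iff_false, iff_false]
      rintro ⟨k, k', x, hx, -⟩
      have := hx a0
      rw [ha0] at this
      exact absurd this (Finset.notMem_empty _)
    rw [h0, Submodule.span_empty, finrank_bot, Nat.cast_zero, zero_mul]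
    positivity
  -- the bound for the cells
  obtain ⟨B, hB⟩ : ∃ B : ℕ, ∀ a, T / α a ≤ B ∧ T / γ a ≤ B := by
    obtain ⟨B, hB⟩ := exists_nat_ge (∑ a, (|T / α a| + |T / γ a|))
    refine ⟨B, fun a => ?_⟩
    have h1 : |T / α a| + |T / γ a| ≤ ∑ a, (|T / α a| + |T / γ a|) :=
      Finset.single_le_sum (f := fun a => |T / α a| + |T / γ a|) (fun a _ => by positivity)
        (mem_univ a)
    have h2 := le_abs_self (T / α a)
    have h3 := le_abs_self (T / γ a)
    have h4 := abs_nonneg (T / α a)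
    have h5 := abs_nonneg (T / γ a)
    constructor <;> linarith
  choose J u hJ hu1 hu2 hu3 using fun a => pair_jump (w a) (R a) (hne a) B (α a) (γ a) (hα a) (hγ a)
  have hten := ten_rank μ (fun a => Fin B × Fin B × {x // x ∈ R a})
    (fun a j => w a j.1 j.2.1 j.2.2) (fun a j => α a * j.1 + γ a * j.2.1) J hJ T
  have hle : Submodule.span ℂ {f : (∀ a, μ a) → ℂ | ∃ (k k' : Fin M → ℕ)
      (x : ∀ a, κ a), (∀ a, x a ∈ R a) ∧ ∑ a, (α a * k a + γ a * k' a) < T ∧
        f = fun y => ∏ a, w a (k a) (k' a) (x a) (y a)} ≤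
      Submodule.span ℂ {f : (∀ a, μ a) → ℂ | ∃ x : ∀ a, Fin B × Fin B × {x // x ∈ R a},
      ∑ a, (α a * ((x a).1 : ℝ) + γ a * ((x a).2.1 : ℝ)) < T ∧
        f = fun y => ∏ a, w a (x a).1 (x a).2.1 (x a).2.2 (y a)} := by
    apply Submodule.span_mono
    rintro f ⟨k, k', x, hx, hs, rfl⟩
    have h1 : ∀ a, α a * k a + γ a * k' a < T := by
      intro a
      refine lt_of_le_of_lt ?_ hs
      exact Finset.single_le_sum (f := fun a => α a * (k a : ℝ) + γ a * (k' a : ℝ))
        (fun a _ => by have := hα a; have := hγ a; positivity) (mem_univ a)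
    have h2 : ∀ a, k a < B := by
      intro a
      have h3 : α a * k a < T := by
        have := h1 a
        have h4 : 0 ≤ γ a * k' a := by have := hγ a; positivity
        linarith
      have h5 : (k a : ℝ) < T / α a := by rw [lt_div_iff₀ (hα a)]; linarith
      exact_mod_cast h5.trans_le (hB a).1
    have h3 : ∀ a, k' a < B := by
      intro a
      have h3 : γ a * k' a < T := by
        have := h1 a
        have h4 : 0 ≤ α a * k a := by have := hα a; positivity
        linarith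
      have h5 : (k' a : ℝ) < T / γ a := by rw [lt_div_iff₀ (hγ a)]; linarith
      exact_mod_cast h5.trans_le (hB a).2
    exact ⟨fun a => (⟨k a, h2 a⟩, ⟨k' a, h3 a⟩, ⟨x a, hx a⟩), hs, rfl⟩
  have hfr := (Submodule.finrank_mono hle).trans hten
  -- Chebyshev
  have hch := cheb M (fun a => Fintype.card (μ a)) hμ ε hε
  have hcard : ((Fintype.piFinset J).filter fun z =>
      ∑ a, (α a * ((z a).1 : ℝ) + γ a * ((z a).2.1 : ℝ)) < T).card ≤
      ((Fintype.piFinset fun a => Icc 1 (Fintype.card (μ a))).filter fun z : Fin M → ℕ =>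
      ∑ a, Real.sqrt ((z a : ℝ) / Fintype.card (μ a)) ≤ (2 / 3 - ε) * M).card := by
    refine card_le_card_of_injOn (fun z a => u a (z a)) ?_ ?_
    · intro z hz
      obtain ⟨hz1, hz2⟩ := mem_filter.1 (mem_coe.1 hz)
      rw [Fintype.mem_piFinset] at hz1
      rw [mem_coe, mem_filter, Fintype.mem_piFinset]
      refine ⟨fun a => mem_Icc.2 (hu1 a _ (hz1 a)), ?_⟩
      have h1 : ∀ a, β * Real.sqrt ((u a (z a) : ℝ) / Fintype.card (μ a)) ≤
          α a * ((z a).1 : ℝ) + γ a * ((z a).2.1 : ℝ) + σ := by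
        intro a
        have h2 := hu3 a _ (hz1 a)
        have h3 : β * Real.sqrt ((u a (z a) : ℝ) / Fintype.card (μ a)) ≤
            Real.sqrt (u a (z a) * (2 * α a * γ a) / (R a).card) := by
          have hRc : (0 : ℝ) < (R a).card := by exact_mod_cast (hne a).card_pos
          have hμc : (0 : ℝ) < Fintype.card (μ a) := by exact_mod_cast hμ a
          rw [← Real.sqrt_sq hβ.le, ← Real.sqrt_mul (sq_nonneg β)]
          apply Real.sqrt_le_sqrt
          rw [mul_div_assoc', div_le_div_iff₀ hμc hRc]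
          have h4 : (0 : ℝ) ≤ u a (z a) := Nat.cast_nonneg _
          have h5 := mul_le_mul_of_nonneg_left (hR a) h4
          calc β ^ 2 * (u a (z a)) * (R a).card = (u a (z a)) * (β ^ 2 * (R a).card) := by ring
            _ ≤ (u a (z a)) * (2 * α a * γ a * Fintype.card (μ a)) := h5
            _ = _ := by ring
        have h6 := hσ a
        linarith
      have h2 : β * ∑ a, Real.sqrt ((u a (z a) : ℝ) / Fintype.card (μ a)) ≤ T + M * σ := by
        rw [Finset.mul_sum]
        refine (Finset.sum_le_sum fun a _ => h1 a).trans ?_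
        rw [Finset.sum_add_distrib, Finset.sum_const, Finset.card_univ, Fintype.card_fin,
          nsmul_eq_mul]
        linarith
      exact le_of_mul_le_mul_left (h2.trans hT) hβ
    · intro z hz z' hz' h
      have hz1 := (Fintype.mem_piFinset.1 (mem_filter.1 (mem_coe.1 hz)).1)
      have hz1' := (Fintype.mem_piFinset.1 (mem_filter.1 (mem_coe.1 hz')).1)
      funext a
      exact hu2 a (mem_coe.2 (hz1 a)) (mem_coe.2 (hz1' a)) (congrFun h a)
  have h9 : (Module.finrank ℂ (Submodule.span ℂ {f : (∀ a, μ a) → ℂ | ∃ (k k' : Fin M → ℕ)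
      (x : ∀ a, κ a), (∀ a, x a ∈ R a) ∧ ∑ a, (α a * k a + γ a * k' a) < T ∧
        f = fun y => ∏ a, w a (k a) (k' a) (x a) (y a)}) : ℝ) ≤
      (((Fintype.piFinset fun a => Icc 1 (Fintype.card (μ a))).filter fun z : Fin M → ℕ =>
      ∑ a, Real.sqrt ((z a : ℝ) / Fintype.card (μ a)) ≤ (2 / 3 - ε) * M).card : ℝ) := by
    exact_mod_cast hfr.trans hcard
  exact (mul_le_mul_of_nonneg_right h9 (by positivity)).trans hch

end Pool.Agent.H4.JP
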