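import Pool.Agent.H4.JP.Defs
import Pool.Agent.H4.JP.RKA

/-! # [H4 JP RKB] The rank of the conditions `SPN` -/

namespace Pool.Agent.H4.JP

open Finset Polynomial Pool.Agent.H72.ES Pool.Agent.H87.SA2 Pool.Agent.H8.AW Pool.Agent.H52.AC
  Pool.Agent.H97.NW Pool.Agent.H97.TR Pool.Agent.H98.MR Pool.Agent.H98.MQ Pool.Agent.H37.TU
  Pool.Agent.H97.TU

theorem sum_two {M : ℕ} {α : Type*} [AddCommMonoid α] (f : Fin (2 * M) → α) :
    ∑ v, f v = ∑ a : Fin M, (f (cv a) + f (an a)) :=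
  prod_two (α := Multiplicative α) f

theorem finrank_biUnion {E κ : Type*} [AddCommGroup E] [Module ℂ E] [FiniteDimensional ℂ E]
    (Z : Finset κ) (S : κ → Set E) (c : ℝ) (h : ∀ b ∈ Z, (Module.finrank ℂ (Submodule.span ℂ (S b)) : ℝ) ≤ c) :
    (Module.finrank ℂ (Submodule.span ℂ (⋃ b ∈ Z, S b)) : ℝ) ≤ Z.card * c := by
  classical
  induction Z using Finset.induction_on with
  | empty => simp
  | insert b Z hb ih =>
    rw [Finset.set_biUnion_insert, Submodule.span_union, card_insert_of_notMem hb]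
    have h1 := ih fun b' hb' => h b' (mem_insert_of_mem hb')
    have h2 := h b (mem_insert_self _ _)
    have h3 : (Module.finrank ℂ (Submodule.span ℂ (S b) ⊔ Submodule.span ℂ (⋃ x ∈ Z, S x) :
        Submodule ℂ E) : ℝ) ≤ Module.finrank ℂ (Submodule.span ℂ (S b)) +
        Module.finrank ℂ (Submodule.span ℂ (⋃ x ∈ Z, S x)) := by
      exact_mod_cast Submodule.finrank_add_le_finrank_add_finrank _ _
    push_cast
    linarith

theorem rank_SPN {M ν : ℕ} (P : Fin (2 * M) → Ptr ν) (D N : Fin (2 * M) → ℕ) (hN : ∀ v, 1 ≤ N v)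
    (ℓ : Fin (2 * M) → ℝ) (hℓ : ∀ v, 0 < ℓ v) (T : ℝ) (PP : Finset (∀ v, Fin (P v).d))
    (Z : Finset ℂ) (R : ℂ → ∀ a : Fin M, Finset (Fin (P (cv a)).d × Fin (P (an a)).d))
    (hst : ∀ x ∈ PP, ∃ b ∈ Z, ∀ a, (x (cv a), x (an a)) ∈ R b a) (β σ ε : ℝ) (hβ : 0 < β)
    (hε : 0 < ε) (hR : ∀ b ∈ Z, ∀ a, β ^ 2 * (R b a).card ≤ 2 * ℓ (cv a) * ℓ (an a) *
      ((N (cv a) * (P (cv a)).d) * (N (an a) * (P (an a)).d)))
    (hσ : ∀ a, ℓ (cv a) + ℓ (an a) ≤ σ) (hT : T + M * σ ≤ β * ((2 / 3 - ε) * M)) :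
    (Module.finrank ℂ (SPN P D N ℓ T PP) : ℝ) * (M * ε ^ 2) ≤
      Z.card * ∏ v, ((N v : ℝ) * (P v).d) := by
  classical
  obtain ⟨c, hc⟩ : ∃ c : ℝ, c = ∏ v, ((N v : ℝ) * (P v).d) := ⟨_, rfl⟩
  rw [← hc]
  have hprod : c = ∏ a : Fin M, (Fintype.card ((Fin (N (cv a)) × Fin (P (cv a)).d) ×
      (Fin (N (an a)) × Fin (P (an a)).d)) : ℝ) := by
    rw [hc, prod_two fun v => ((N v : ℝ) * (P v).d)]
    refine Finset.prod_congr rfl fun a _ => ?_
    simp only [Fintype.card_prod, Fintype.card_fin]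
    push_cast
    rfl
  let S : ℂ → Set (Mq P N → ℂ) := fun b => {f | ∃ K p, K ∈ cells ℓ T ∧
    (∀ a, (p (cv a), p (an a)) ∈ R b a) ∧ f = VV P D N K p}
  have hsub : SPN P D N ℓ T PP ≤ Submodule.span ℂ (⋃ b ∈ Z, S b) := by
    apply Submodule.span_mono
    rintro f ⟨K, p, hK, hp, rfl⟩
    obtain ⟨b, hb, h⟩ := hst p hp
    exact Set.mem_biUnion hb ⟨K, p, hK, h, rfl⟩
  -- one root
  have hone : ∀ b ∈ Z, (Module.finrank ℂ (Submodule.span ℂ (S b)) : ℝ) * (M * ε ^ 2) ≤ c := by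
    intro b hb
    have h1 := pairs_rank (M := M) (fun a => (Fin (N (cv a)) × Fin (P (cv a)).d) ×
      (Fin (N (an a)) × Fin (P (an a)).d)) (fun a => Fin (P (cv a)).d × Fin (P (an a)).d)
      (fun a k k' x y => wf P D N (cv a) k x.1 y.1 * wf P D N (an a) k' x.2 y.2) (R b)
      (fun a => ℓ (cv a)) (fun a => ℓ (an a)) (fun a => hℓ _) (fun a => hℓ _) T β σ ε hβ hε
      (fun a => by
        rw [Fintype.card_prod, Fintype.card_prod, Fintype.card_prod, Fintype.card_fin,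
          Fintype.card_fin, Fintype.card_fin, Fintype.card_fin]
        exact Nat.mul_pos (Nat.mul_pos (hN _) (P (cv a)).C.d1) (Nat.mul_pos (hN _) (P (an a)).C.d1))
      (fun a => by
        have := hR b hb a
        rw [Fintype.card_prod, Fintype.card_prod, Fintype.card_prod, Fintype.card_fin,
          Fintype.card_fin, Fintype.card_fin, Fintype.card_fin]
        push_cast
        exact this) hσ hT
    rw [← hprod] at h1
    refine le_trans (mul_le_mul_of_nonneg_right ?_ (by positivity)) h1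
    -- the span is the image
    let Φ : ((∀ a : Fin M, (Fin (N (cv a)) × Fin (P (cv a)).d) ×
        (Fin (N (an a)) × Fin (P (an a)).d)) → ℂ) →ₗ[ℂ] (Mq P N → ℂ) :=
      LinearMap.funLeft ℂ ℂ fun μ a => (μ (cv a), μ (an a))
    have h2 : Submodule.span ℂ (S b) ≤ (Submodule.span ℂ {f : (∀ a : Fin M,
        (Fin (N (cv a)) × Fin (P (cv a)).d) × (Fin (N (an a)) × Fin (P (an a)).d)) → ℂ |
        ∃ (k k' : Fin M → ℕ) (x : ∀ a, Fin (P (cv a)).d × Fin (P (an a)).d),
        (∀ a, x a ∈ R b a) ∧ ∑ a, (ℓ (cv a) * k a + ℓ (an a) * k' a) < T ∧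
        f = fun y => ∏ a, (wf P D N (cv a) (k a) (x a).1 (y a).1 *
          wf P D N (an a) (k' a) (x a).2 (y a).2)}).map Φ := by
      rw [Submodule.span_le]
      rintro f ⟨K, p, hK, hp, rfl⟩
      rw [SetLike.mem_coe, Submodule.mem_map]
      refine ⟨fun y => ∏ a, (wf P D N (cv a) (K (cv a)) (p (cv a)) (y a).1 *
          wf P D N (an a) (K (an a)) (p (an a)) (y a).2), ?_, ?_⟩
      · apply Submodule.subset_span
        refine ⟨fun a => K (cv a), fun a => K (an a), fun a => (p (cv a), p (an a)), hp, ?_, rfl⟩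
        rw [mem_cells hℓ, sum_two] at hK
        exact hK
      · funext μ
        simp only [Φ, LinearMap.funLeft_apply]
        unfold VV
        rw [prod_two fun v => wf P D N v (K v) (p v) (μ v)]
    have h3 := (Submodule.finrank_mono h2).trans (Submodule.finrank_map_le Φ _)
    exact_mod_cast h3
  have hfr : (Module.finrank ℂ (SPN P D N ℓ T PP) : ℝ) ≤
      Module.finrank ℂ (Submodule.span ℂ (⋃ b ∈ Z, S b)) := by
    exact_mod_cast Submodule.finrank_mono hsub
  rcases Nat.eq_zero_or_pos M with hM | hM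
  · subst hM
    simp only [Nat.cast_zero, zero_mul, mul_zero]
    rw [hprod]
    positivity
  · have hMε : 0 < (M : ℝ) * ε ^ 2 := by
      have : (0 : ℝ) < M := by exact_mod_cast hM
      positivity
    have h4 := finrank_biUnion Z S (c / (M * ε ^ 2)) fun b hb => by
      rw [le_div_iff₀ hMε]
      exact hone b hb
    have h5 := hfr.trans h4
    rw [← mul_div_assoc, le_div_iff₀ hMε] at h5
    exact h5

end Pool.Agent.H4.JP
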