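import Mathlib

/-! # [H4 JP SIR] Siegel's lemma with the rank of the conditions (real linear forms)

As `pigeon_gen` in `Pool/Agent/H97/NW/SIE.lean`, with `R` a bound for the RANK. Let `Z = ⌈(5M)^r⌉₊`, `(5M)^r ≤ Z ≤ (6M)^r`, `U = card ι`,
`Φ : (ι → ℝ) →ₗ[ℝ] (κ → ℝ)`, `Φ x j = ∑ i, c j i * x i` (`κ → ℝ` with the sup norm), `W = LinearMap.range Φ`. `finrank W ≤ R` (rank of a matrix = rank of its rows:
`Matrix.mulVecLin`, `Matrix.rank_eq_finrank_span_row`, `Matrix.rank_eq_finrank_range_toLin`). For `B : ι → Fin (Z+1)`: `‖Φ B‖ ≤ Z M`. CLAIM: two different `B`, `B'` have `‖Φ B - Φ B'‖ < 1/2`;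
then `A = B - B'` (as integers) has `|A i| ≤ Z ≤ (6M)^r`, `A ≠ 0`, `|∑ c A| < 1/2`. Proof of the claim: otherwise the open balls of radius `1/4` in the normed space `W` about the points
`Φ B` are disjoint and contained in the ball of radius `Z M + 1/4` about `0`; Haar measure of `W` (`MeasureTheory.Measure.addHaar_ball`, `d = finrank W`, or
`Besicovitch`/`Metric` covering lemmas): `(Z+1)^U (1/4)^d ≤ (Z M + 1/4)^d`, i.e. `(Z+1)^U ≤ (4 Z M + 1)^d ≤ (5 M Z)^d ≤ (5 M Z)^R`; but `((5MZ)^R)^r = ((5M)^r)^R Z^(rR) ≤ Z^((r+1)R) ≤ Z^(rU)`, so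
`(5MZ)^R ≤ Z^U < (Z+1)^U`. Contradiction (`U ≥ 1`). If `d = 0` the claim is trivial (`Φ = 0`, `Z ≥ 1`). -/

namespace Pool.Agent.H4.JP

open Finset

private lemma sepCard {E : Type} [NormedAddCommGroup E] [NormedSpace ℝ E] [FiniteDimensional ℝ E]
    (s : Finset E) (L : ℝ) (hL : 0 ≤ L) (hs : ∀ c ∈ s, ‖c‖ ≤ L)
    (h : ∀ c ∈ s, ∀ d ∈ s, c ≠ d → 1 / 2 ≤ ‖c - d‖) :
    (s.card : ℝ) ≤ (4 * L + 1) ^ Module.finrank ℝ E := by
  borelize E
  let μ : MeasureTheory.Measure E := MeasureTheory.Measure.addHaar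
  let δ : ℝ := (1 : ℝ) / 4
  let ρ : ℝ := L + (1 : ℝ) / 4
  have ρpos : 0 < ρ := by positivity
  have δpos : 0 < δ := by norm_num [δ]
  have hD : Set.Pairwise (s : Set E) (Function.onFun Disjoint fun c => Metric.ball (c : E) δ) := by
    rintro c hc d hd hcd
    apply Metric.ball_disjoint_ball
    rw [dist_eq_norm]
    have := h c hc d hd hcd
    calc δ + δ = 1 / 2 := by norm_num [δ]
      _ ≤ _ := this
  have hA : (⋃ c ∈ s, Metric.ball (c : E) δ) ⊆ Metric.ball (0 : E) ρ := by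
    refine Set.iUnion₂_subset fun x hx => ?_
    apply Metric.ball_subset_ball'
    rw [dist_zero_right]
    have := hs x hx
    show (1 : ℝ) / 4 + ‖x‖ ≤ L + 1 / 4
    linarith
  have hI : (s.card : ENNReal) * ENNReal.ofReal (δ ^ Module.finrank ℝ E) * μ (Metric.ball 0 1) ≤
      ENNReal.ofReal (ρ ^ Module.finrank ℝ E) * μ (Metric.ball 0 1) :=
    calc
      (s.card : ENNReal) * ENNReal.ofReal (δ ^ Module.finrank ℝ E) * μ (Metric.ball 0 1) =
          μ (⋃ c ∈ s, Metric.ball (c : E) δ) := by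
        rw [MeasureTheory.measure_biUnion_finset hD fun c _ => measurableSet_ball]
        simp only [μ.addHaar_ball_of_pos _ δpos]
        simp only [Finset.sum_const, nsmul_eq_mul, mul_assoc]
      _ ≤ μ (Metric.ball (0 : E) ρ) := MeasureTheory.measure_mono hA
      _ = ENNReal.ofReal (ρ ^ Module.finrank ℝ E) * μ (Metric.ball 0 1) := by
        simp only [μ.addHaar_ball_of_pos _ ρpos]
  have hJ : (s.card : ENNReal) * ENNReal.ofReal (δ ^ Module.finrank ℝ E) ≤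
      ENNReal.ofReal (ρ ^ Module.finrank ℝ E) :=
    (ENNReal.mul_le_mul_iff_left (Metric.measure_ball_pos _ _ zero_lt_one).ne'
      MeasureTheory.measure_ball_lt_top.ne).1 hI
  have hK := ENNReal.toReal_le_of_le_ofReal (pow_nonneg ρpos.le _) hJ
  rw [ENNReal.toReal_mul, ENNReal.toReal_natCast,
    ENNReal.toReal_ofReal (pow_nonneg δpos.le _)] at hK
  have h4 : (4 * L + 1 : ℝ) = ρ / δ := by
    show (4 * L + 1 : ℝ) = (L + 1 / 4) / (1 / 4)
    ring
  rw [h4, div_pow, le_div_iff₀ (pow_pos δpos _)]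
  exact hK

theorem pigeon_rk {ι κ : Type} [Fintype ι] [Fintype κ] (c : κ → ι → ℝ) {M : ℝ} (hM : 1 ≤ M)
    (hc : ∀ j, ∑ i, |c j i| ≤ M) {r R : ℕ} (hr : 1 ≤ r)
    (hR : Module.finrank ℝ (Submodule.span ℝ (Set.range c)) ≤ R)
    (h43 : (r + 1) * R ≤ r * Fintype.card ι) (hι : 0 < Fintype.card ι) :
    ∃ A : ι → ℤ, A ≠ 0 ∧ (∀ i, |(A i : ℝ)| ≤ (6 * M) ^ r) ∧
      ∀ j, |∑ i, c j i * (A i : ℝ)| < 1 / 2 := by
  classical
  obtain ⟨Z, hZ1, hZ2⟩ : ∃ Z : ℕ, (5 * M) ^ r ≤ (Z : ℝ) ∧ (Z : ℝ) ≤ (6 * M) ^ r := by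
    refine ⟨⌈(5 * M) ^ r⌉₊, Nat.le_ceil _, ?_⟩
    have h1 : (⌈(5 * M) ^ r⌉₊ : ℝ) < (5 * M) ^ r + 1 := Nat.ceil_lt_add_one (by positivity)
    have h2 : (1 : ℝ) ≤ M ^ r := one_le_pow₀ hM
    have h3 : (5 : ℕ) ^ r + 1 ≤ 6 ^ r := Nat.pow_lt_pow_left (by norm_num) (by omega)
    have h3' : (5 : ℝ) ^ r + 1 ≤ 6 ^ r := by exact_mod_cast h3
    rw [mul_pow] at h1 ⊢
    rw [mul_pow]
    nlinarith
  have hZ5 : (5 : ℝ) ≤ Z := by
    have h2 : 5 * M ≤ (5 * M) ^ r := le_self_pow₀ (by linarith) (by omega)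
    linarith
  have hZpos : 0 < Z := by
    have : (0 : ℝ) < Z := by linarith
    exact_mod_cast this
  let Φ : (ι → ℝ) →ₗ[ℝ] (κ → ℝ) := (Matrix.of c).mulVecLin
  have hΦ : ∀ x j, Φ x j = ∑ i, c j i * x i := fun x j => rfl
  have hrk : Module.finrank ℝ (LinearMap.range Φ) ≤ R := by
    have h1 := (Matrix.of c).rank_eq_finrank_span_row
    have h2 : (Matrix.of c).rank = Module.finrank ℝ (LinearMap.range Φ) := rfl
    rw [← h2, h1]
    exact hR
  by_contra hno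
  push Not at hno
  let v : (ι → Fin (Z + 1)) → (ι → ℝ) := fun B i => ((B i : ℕ) : ℝ)
  let f : (ι → Fin (Z + 1)) → LinearMap.range Φ := fun B => ⟨Φ (v B), LinearMap.mem_range_self Φ _⟩
  have hsep : ∀ B B', B ≠ B' → 1 / 2 ≤ ‖f B - f B'‖ := by
    intro B B' hne
    by_contra hlt
    push Not at hlt
    have hA0 : (fun i => ((B i : ℕ) : ℤ) - ((B' i : ℕ) : ℤ)) ≠ 0 := by
      intro h0
      apply hne
      funext i
      have h1 : ((B i : ℕ) : ℤ) - ((B' i : ℕ) : ℤ) = 0 := congrFun h0 i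
      apply Fin.ext
      omega
    obtain ⟨j, hj⟩ := hno _ hA0 (by
      intro i
      have h1 : ((B i : ℕ) : ℝ) ≤ Z := by
        have := Nat.lt_succ_iff.1 (B i).2
        exact_mod_cast this
      have h2 : ((B' i : ℕ) : ℝ) ≤ Z := by
        have := Nat.lt_succ_iff.1 (B' i).2
        exact_mod_cast this
      have h3 : (0 : ℝ) ≤ ((B i : ℕ) : ℝ) := Nat.cast_nonneg _
      have h4 : (0 : ℝ) ≤ ((B' i : ℕ) : ℝ) := Nat.cast_nonneg _
      push_cast
      rw [abs_le]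
      constructor <;> linarith)
    have h5 : ‖(Φ (v B) - Φ (v B')) j‖ ≤ ‖Φ (v B) - Φ (v B')‖ := norm_le_pi_norm _ j
    have h6 : ‖f B - f B'‖ = ‖Φ (v B) - Φ (v B')‖ := rfl
    have h7 : (Φ (v B) - Φ (v B')) j =
        ∑ i, c j i * ((((B i : ℕ) : ℤ) - ((B' i : ℕ) : ℤ) : ℤ) : ℝ) := by
      rw [Pi.sub_apply, hΦ, hΦ, ← Finset.sum_sub_distrib]
      refine Finset.sum_congr rfl fun i _ => ?_
      show c j i * ((B i : ℕ) : ℝ) - c j i * ((B' i : ℕ) : ℝ) = _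
      push_cast
      ring
    rw [h7, Real.norm_eq_abs] at h5
    linarith
  have hinj : Function.Injective f := by
    intro B B' hBB
    by_contra hne
    have := hsep B B' hne
    rw [hBB, sub_self, norm_zero] at this
    norm_num at this
  have hnorm : ∀ B, ‖f B‖ ≤ Z * M := by
    intro B
    have h6 : ‖f B‖ = ‖Φ (v B)‖ := rfl
    rw [h6, pi_norm_le_iff_of_nonneg (by positivity)]
    intro j
    rw [hΦ, Real.norm_eq_abs]
    calc |∑ i, c j i * v B i| ≤ ∑ i, |c j i * v B i| := Finset.abs_sum_le_sum_abs _ _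
      _ ≤ ∑ i, |c j i| * Z := by
          refine Finset.sum_le_sum fun i _ => ?_
          rw [abs_mul]
          refine mul_le_mul_of_nonneg_left ?_ (abs_nonneg _)
          show |((B i : ℕ) : ℝ)| ≤ Z
          rw [abs_of_nonneg (Nat.cast_nonneg _)]
          exact_mod_cast Nat.lt_succ_iff.1 (B i).2
      _ = (∑ i, |c j i|) * Z := by rw [Finset.sum_mul]
      _ ≤ M * Z := mul_le_mul_of_nonneg_right (hc j) (Nat.cast_nonneg _)
      _ = Z * M := mul_comm _ _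
  have hcount := sepCard (Finset.univ.image f) (Z * M) (by positivity)
    (by
      intro c hc
      obtain ⟨B, -, rfl⟩ := Finset.mem_image.1 hc
      exact hnorm B)
    (by
      intro c hc d hd hcd
      obtain ⟨B, -, rfl⟩ := Finset.mem_image.1 hc
      obtain ⟨B', -, rfl⟩ := Finset.mem_image.1 hd
      exact hsep B B' (fun e => hcd (e ▸ rfl)))
  rw [Finset.card_image_of_injective _ hinj, Finset.card_univ, Fintype.card_fun,
    Fintype.card_fin] at hcount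
  have hZM1 : (1 : ℝ) ≤ Z * M := by nlinarith
  have h5 : (4 * (Z * M) + 1 : ℝ) ≤ 5 * M * Z := by linarith
  have h6 : (((Z + 1) ^ Fintype.card ι : ℕ) : ℝ) ≤ (5 * M * Z) ^ R := by
    refine hcount.trans ((pow_le_pow_left₀ (by positivity) h5 _).trans ?_)
    exact pow_le_pow_right₀ (by linarith) hrk
  have h7 : ((5 * M * (Z : ℝ)) ^ R) ^ r ≤ ((Z : ℝ) ^ Fintype.card ι) ^ r := by
    have e1 : ((5 * M * (Z : ℝ)) ^ R) ^ r = ((5 * M) ^ r * (Z : ℝ) ^ r) ^ R := by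
      rw [← pow_mul, mul_comm R r, pow_mul, mul_pow (5 * M) (Z : ℝ) r]
    have e2 : (5 * M) ^ r * (Z : ℝ) ^ r ≤ (Z : ℝ) ^ (r + 1) := by
      rw [pow_succ, mul_comm ((Z : ℝ) ^ r)]
      exact mul_le_mul_of_nonneg_right hZ1 (by positivity)
    calc ((5 * M * (Z : ℝ)) ^ R) ^ r = ((5 * M) ^ r * (Z : ℝ) ^ r) ^ R := e1
      _ ≤ ((Z : ℝ) ^ (r + 1)) ^ R := pow_le_pow_left₀ (by positivity) e2 _
      _ = (Z : ℝ) ^ ((r + 1) * R) := by rw [← pow_mul]
      _ ≤ (Z : ℝ) ^ (r * Fintype.card ι) := pow_le_pow_right₀ (by linarith) h43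
      _ = ((Z : ℝ) ^ Fintype.card ι) ^ r := by rw [← pow_mul, mul_comm r]
  have h8 : (5 * M * (Z : ℝ)) ^ R ≤ (Z : ℝ) ^ Fintype.card ι :=
    (pow_le_pow_iff_left₀ (by positivity) (by positivity) (by omega)).1 h7
  have h9 : (Z : ℝ) ^ Fintype.card ι < ((Z + 1 : ℕ) : ℝ) ^ Fintype.card ι := by
    refine pow_lt_pow_left₀ ?_ (Nat.cast_nonneg _) hι.ne'
    push_cast
    linarith
  rw [Nat.cast_pow] at h6
  linarith

end Pool.Agent.H4.JP
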